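import Pool.Agent.L7h36.IX.Den
import Pool.Agent.W70.HRC.Avc

/-!
Index classes: from one class of shifts to all classes (helper36; follows `Pool.Agent.W70.HRC.Avc`).
-/

set_option autoImplicit false

namespace Pool.Agent.L7h36.IX

open Finset
open Pool.Agent.H361R2.PP Pool.Agent.W70.HR Pool.Agent.W70.HRC
open Pool.Agent.W131.HR (Vb Vb_sub sum_Vb sub_Vb choose_sum Wpos)

open Classical in
/-- the number of `n ∈ [X, 2X)` for which the `n + a`, `a ∈ T`, are consecutive primes, the first with index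
`≡ r` modulo `m` -/
noncomputable def cnTI (m r X : ℕ) (T : Finset ℕ) : ℕ :=
  ((Ico X (2 * X)).filter (fun n => Cns n T ∧ Idx m r n T)).card

open Classical in
/-- the good sets in the class `b` -/
noncomputable def QI (k m : ℕ) (δ : ℝ) (X : ℕ) (A : Finset ℕ) (b : ℕ) : Finset (Finset ℕ) :=
  (A.powersetCard (k + 1)).filter (fun T => T ⊆ Vb X A b ∧ ∀ r : ℕ, δ * ex X (k + 1) ≤ (cnI m r X b T : ℝ))

open Classical in
/-- the number of classes in which `T` is good -/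
noncomputable def gI (k m : ℕ) (δ : ℝ) (X : ℕ) (A T : Finset ℕ) : ℕ :=
  ((range (Wm X)).filter (fun b => T ⊆ Vb X A b ∧ ∀ r : ℕ, δ * ex X (k + 1) ≤ (cnI m r X b T : ℝ))).card

lemma sum_QI (k m : ℕ) (δ : ℝ) (X : ℕ) (A : Finset ℕ) :
    ∑ b ∈ range (Wm X), (QI k m δ X A b).card = ∑ T ∈ A.powersetCard (k + 1), gI k m δ X A T := by
  classical
  exact sum_card_bipartiteAbove_eq_sum_card_bipartiteBelow
    (s := range (Wm X)) (t := A.powersetCard (k + 1))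
    (fun b T => T ⊆ Vb X A b ∧ ∀ r : ℕ, δ * ex X (k + 1) ≤ (cnI m r X b T : ℝ))

lemma gI_le (k m : ℕ) (δ : ℝ) (X : ℕ) (A T : Finset ℕ) (hT : T ⊆ A) : gI k m δ X A T ≤ gW X T := by
  classical
  unfold gI gW
  apply card_le_card
  intro b hb
  rw [mem_filter] at hb ⊢
  exact ⟨hb.1, (sub_Vb X A T hT b).mp hb.2.1⟩

lemma cnTI_ge (k m r : ℕ) (δ : ℝ) (X : ℕ) (A T : Finset ℕ) :
    (gI k m δ X A T : ℝ) * (δ * ex X (k + 1)) ≤ (cnTI m r X T : ℝ) := by
  classical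
  have h1 : cnTI m r X T = ∑ b ∈ range (Wm X), cnI m r X b T := by
    unfold cnTI
    rw [card_eq_sum_card_fiberwise (f := fun n => n % Wm X) (t := range (Wm X))]
    · apply sum_congr rfl
      intro b _
      unfold cnI SI
      congr 1
      ext n
      simp only [mem_filter]
      tauto
    · intro n _
      exact mem_coe.mpr (mem_range.mpr (Nat.mod_lt _ (Wpos X)))
  rw [h1]
  push_cast
  calc (gI k m δ X A T : ℝ) * (δ * ex X (k + 1))
      = ∑ b ∈ (range (Wm X)).filter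
          (fun b => T ⊆ Vb X A b ∧ ∀ r : ℕ, δ * ex X (k + 1) ≤ (cnI m r X b T : ℝ)), (δ * ex X (k + 1)) := by
        rw [sum_const, nsmul_eq_mul]; rfl
    _ ≤ ∑ b ∈ (range (Wm X)).filter
          (fun b => T ⊆ Vb X A b ∧ ∀ r : ℕ, δ * ex X (k + 1) ≤ (cnI m r X b T : ℝ)), (cnI m r X b T : ℝ) := by
        apply sum_le_sum
        intro b hb
        exact (mem_filter.mp hb).2.2 r
    _ ≤ ∑ b ∈ range (Wm X), (cnI m r X b T : ℝ) := by
        apply sum_le_sum_of_subset_of_nonneg (filter_subset _ _)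
        intro _ _ _
        positivity

open Classical in
/-- the average over the classes -/
def AvgI (k m : ℕ) (Λ κ : ℝ) : Prop := ∀ η : ℝ, 0 < η →
  ∃ δ : ℝ, 0 < δ ∧ ∃ X₀ : ℕ, ∀ X : ℕ, X₀ ≤ X → ∀ A : Finset ℕ,
  (∀ a ∈ A, 1 ≤ a ∧ (a : ℝ) ≤ Λ * Real.log X) → η * Real.log X ≤ A.card →
  κ * ∑ T ∈ A.powersetCard (k + 1), (gW X T : ℝ) ≤
    ∑ T ∈ (A.powersetCard (k + 1)).filter (fun T =>
      ∀ r : ℕ, δ * ((gW X T : ℝ) * ex X (k + 1)) ≤ (cnTI m r X T : ℝ)), (gW X T : ℝ)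

theorem avgI (k m : ℕ) (Λ c : ℝ) (hc : 0 < c) (hD : DenI k m Λ c) : AvgI k m Λ (c / 4) := by
  classical
  intro η hη
  obtain ⟨δ, hδ, X₀, hX₀⟩ := hD (η / 2) (by positivity)
  refine ⟨c / 4 * δ, by positivity, X₀, ?_⟩
  intro X hX A hA hAcard
  have hW0 : 0 < Wm X := Wpos X
  have hWr : (0 : ℝ) < Wm X := by exact_mod_cast hW0
  have hL : 0 ≤ Real.log X := Real.log_natCast_nonneg X
  obtain ⟨ρ, hρ⟩ : ∃ ρ : ℝ, ρ = (Nat.totient (Wm X) : ℝ) / Wm X := ⟨_, rfl⟩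
  have hρ0 : 0 ≤ ρ := by rw [hρ]; positivity
  obtain ⟨N, hN⟩ : ∃ N : ℕ → ℝ, N = fun b => ((Vb X A b).card : ℝ) := ⟨_, rfl⟩
  have hN0 : ∀ b, 0 ≤ N b := fun b => by simp only [hN]; positivity
  obtain ⟨S, hS⟩ : ∃ S : ℝ, S = ∑ b ∈ range (Wm X), N b ^ (k + 1) := ⟨_, rfl⟩
  obtain ⟨P, hP⟩ : ∃ P : ℝ, P = ∑ T ∈ A.powersetCard (k + 1), (gW X T : ℝ) := ⟨_, rfl⟩
  have hP0 : 0 ≤ P := by
    rw [hP]; apply sum_nonneg; intro _ _; positivity
  -- F1
  have hF1 : P ≤ S := by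
    have h1 : P = ∑ b ∈ range (Wm X), (((Vb X A b).card.choose (k + 1) : ℕ) : ℝ) := by
      rw [hP]
      exact_mod_cast choose_sum k X A
    rw [h1, hS]
    apply sum_le_sum
    intro b _
    have h2 : (Vb X A b).card.choose (k + 1) ≤ (Vb X A b).card ^ (k + 1) := Nat.choose_le_pow _ _
    simp only [hN]
    exact_mod_cast h2
  -- power mean
  have hPM : (Wm X : ℝ) * (η * Real.log X * ρ) ^ (k + 1) ≤ S := by
    have h1 := pow_sum_div_card_le_sum_pow (s := range (Wm X)) (f := N) (fun b _ => hN0 b) k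
    rw [card_range, ← hS] at h1
    refine le_trans ?_ h1
    have h2 : ∑ b ∈ range (Wm X), N b = (A.card : ℝ) * Nat.totient (Wm X) := by
      simp only [hN]
      exact_mod_cast sum_Vb X A
    rw [h2, le_div_iff₀ (by positivity)]
    have h3 : (Wm X : ℝ) * (η * Real.log X * ρ) ^ (k + 1) * (Wm X : ℝ) ^ k =
        (η * Real.log X * Nat.totient (Wm X)) ^ (k + 1) := by
      rw [hρ]
      rw [mul_pow, div_pow, mul_pow]
      field_simp
      ring
    rw [h3]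
    apply pow_le_pow_left₀ (by positivity)
    apply mul_le_mul_of_nonneg_right hAcard (by positivity)
  -- classes
  obtain ⟨big, hbig⟩ : ∃ big : Finset ℕ, big =
    (range (Wm X)).filter (fun b => η / 2 * (Real.log X * ρ) ≤ N b) := ⟨_, rfl⟩
  obtain ⟨small, hsmall⟩ : ∃ small : Finset ℕ, small =
    (range (Wm X)).filter (fun b => ¬ η / 2 * (Real.log X * ρ) ≤ N b) := ⟨_, rfl⟩
  have hsplit : ∑ b ∈ big, N b ^ (k + 1) + ∑ b ∈ small, N b ^ (k + 1) = S := by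
    rw [hbig, hsmall, hS]
    exact sum_filter_add_sum_filter_not _ _ _
  have hsm : ∑ b ∈ small, N b ^ (k + 1) ≤ 1 / 2 * S := by
    calc ∑ b ∈ small, N b ^ (k + 1) ≤ ∑ b ∈ small, (η / 2 * (Real.log X * ρ)) ^ (k + 1) := by
          apply sum_le_sum
          intro b hb
          rw [hsmall, mem_filter, not_le] at hb
          exact pow_le_pow_left₀ (hN0 b) hb.2.le _
      _ ≤ ∑ b ∈ range (Wm X), (η / 2 * (Real.log X * ρ)) ^ (k + 1) := by
          apply sum_le_sum_of_subset_of_nonneg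
          · rw [hsmall]
            exact filter_subset _ _
          intro _ _ _
          positivity
      _ = (Wm X : ℝ) * (1 / 2 * (η * Real.log X * ρ)) ^ (k + 1) := by
          rw [sum_const, card_range, nsmul_eq_mul]
          congr 2
          ring
      _ = (1 / 2) ^ (k + 1) * ((Wm X : ℝ) * (η * Real.log X * ρ) ^ (k + 1)) := by
          rw [mul_pow]; ring
      _ ≤ 1 / 2 * ((Wm X : ℝ) * (η * Real.log X * ρ) ^ (k + 1)) := by
          apply mul_le_mul_of_nonneg_right _ (by positivity)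
          calc (1 / 2 : ℝ) ^ (k + 1) ≤ (1 / 2) ^ 1 :=
                pow_le_pow_of_le_one (by norm_num) (by norm_num) (by omega)
            _ = 1 / 2 := pow_one _
      _ ≤ 1 / 2 * S := mul_le_mul_of_nonneg_left hPM (by norm_num)
  have hbigsum : c / 2 * P ≤ ∑ b ∈ range (Wm X), ((QI k m δ X A b).card : ℝ) := by
    calc c / 2 * P ≤ c / 2 * S := mul_le_mul_of_nonneg_left hF1 (by positivity)
      _ ≤ c * ∑ b ∈ big, N b ^ (k + 1) := by
          have h1 : 1 / 2 * S ≤ ∑ b ∈ big, N b ^ (k + 1) := by linarith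
          calc c / 2 * S = c * (1 / 2 * S) := by ring
            _ ≤ _ := mul_le_mul_of_nonneg_left h1 hc.le
      _ = ∑ b ∈ big, c * N b ^ (k + 1) := by rw [mul_sum]
      _ ≤ ∑ b ∈ big, ((QI k m δ X A b).card : ℝ) := by
          apply sum_le_sum
          intro b hb
          rw [hbig, mem_filter, mem_range] at hb
          have h1 := hX₀ X hX b hb.1 (Vb X A b) (Vb_sub Λ X A hA b) (by
            have h2 := hb.2
            rw [hρ, hN] at h2
            exact h2)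
          have h2 : ((Vb X A b).powersetCard (k + 1)).filter
              (fun T => ∀ r : ℕ, δ * ex X (k + 1) ≤ (cnI m r X b T : ℝ)) ⊆ QI k m δ X A b := by
            intro T hT
            obtain ⟨h3, h4⟩ := mem_filter.1 hT
            obtain ⟨h5, h6⟩ := mem_powersetCard.1 h3
            unfold QI
            rw [mem_filter, mem_powersetCard]
            refine ⟨⟨h5.trans (filter_subset _ _), h6⟩, h5, h4⟩
          simp only [hN]
          refine h1.trans ?_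
          refine Nat.cast_le.2 ((le_of_eq ?_).trans (card_le_card h2))
          congr
      _ ≤ _ := by
          apply sum_le_sum_of_subset_of_nonneg
          · rw [hbig]
            exact filter_subset _ _
          intro _ _ _
          positivity
  have hgI : c / 2 * P ≤ ∑ T ∈ A.powersetCard (k + 1), (gI k m δ X A T : ℝ) := by
    have h1 := sum_QI k m δ X A
    have h2 : ∑ b ∈ range (Wm X), ((QI k m δ X A b).card : ℝ) =
        ∑ T ∈ A.powersetCard (k + 1), (gI k m δ X A T : ℝ) := by exact_mod_cast h1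
    rw [← h2]
    exact hbigsum
  -- good sets
  obtain ⟨Gs, hGs⟩ : ∃ Gs : Finset (Finset ℕ), Gs =
    (A.powersetCard (k + 1)).filter (fun T => c / 4 * (gW X T : ℝ) ≤ gI k m δ X A T) := ⟨_, rfl⟩
  obtain ⟨Bs, hBs⟩ : ∃ Bs : Finset (Finset ℕ), Bs =
    (A.powersetCard (k + 1)).filter (fun T => ¬ c / 4 * (gW X T : ℝ) ≤ gI k m δ X A T) := ⟨_, rfl⟩
  have hsp2 : ∑ T ∈ Gs, (gI k m δ X A T : ℝ) + ∑ T ∈ Bs, (gI k m δ X A T : ℝ) =
      ∑ T ∈ A.powersetCard (k + 1), (gI k m δ X A T : ℝ) := by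
    rw [hGs, hBs]
    exact sum_filter_add_sum_filter_not _ _ _
  have hBsum : ∑ T ∈ Bs, (gI k m δ X A T : ℝ) ≤ c / 4 * P := by
    calc ∑ T ∈ Bs, (gI k m δ X A T : ℝ) ≤ ∑ T ∈ Bs, c / 4 * (gW X T : ℝ) := by
          apply sum_le_sum
          intro T hT
          rw [hBs, mem_filter, not_le] at hT
          exact hT.2.le
      _ ≤ ∑ T ∈ A.powersetCard (k + 1), c / 4 * (gW X T : ℝ) := by
          apply sum_le_sum_of_subset_of_nonneg
          · rw [hBs]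
            exact filter_subset _ _
          intro _ _ _
          positivity
      _ = c / 4 * P := by rw [hP, mul_sum]
  have hGsum : ∑ T ∈ Gs, (gI k m δ X A T : ℝ) ≤ ∑ T ∈ Gs, (gW X T : ℝ) := by
    apply sum_le_sum
    intro T hT
    rw [hGs, mem_filter, mem_powersetCard] at hT
    exact_mod_cast gI_le k m δ X A T hT.1.1
  have hfinal : c / 4 * P ≤ ∑ T ∈ Gs, (gW X T : ℝ) := by linarith
  rw [hP] at hfinal
  refine hfinal.trans ?_
  apply sum_le_sum_of_subset_of_nonneg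
  · intro T hT
    rw [hGs, mem_filter] at hT
    rw [mem_filter]
    refine ⟨hT.1, fun r => ?_⟩
    have h1 := cnTI_ge k m r δ X A T
    have h2 : c / 4 * δ * ((gW X T : ℝ) * ex X (k + 1)) ≤ (gI k m δ X A T : ℝ) * (δ * ex X (k + 1)) := by
      calc c / 4 * δ * ((gW X T : ℝ) * ex X (k + 1)) = (c / 4 * (gW X T : ℝ)) * (δ * ex X (k + 1)) := by ring
        _ ≤ _ := by
          apply mul_le_mul_of_nonneg_right hT.2
          have := Pool.Agent.W131.HR.ex_nonneg X (k + 1)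
          positivity
    exact h2.trans h1
  · intro _ _ _
    positivity

open Classical in
/-- the theorem for the integers of `[X, 2X)` -/
def FinI (k m : ℕ) (Λ κ : ℝ) : Prop := ∀ η : ℝ, 0 < η →
  ∃ δ : ℝ, 0 < δ ∧ ∃ X₀ : ℕ, ∀ X : ℕ, X₀ ≤ X → ∀ A : Finset ℕ,
  (∀ a ∈ A, 1 ≤ a ∧ (a : ℝ) ≤ Λ * Real.log X) → η * Real.log X ≤ A.card →
  κ * ∑ T ∈ A.powersetCard (k + 1), Pool.Agent.H387R2.Uni.CT T ≤
    ∑ T ∈ (A.powersetCard (k + 1)).filter (fun T => ∀ r : ℕ,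
      δ * (Pool.Agent.H387R2.Uni.CT T * (X / Real.log X ^ (k + 1))) ≤ (cnTI m r X T : ℝ)),
      Pool.Agent.H387R2.Uni.CT T

theorem finI (k m : ℕ) (Λ κ₀ : ℝ) (hΛ : 0 < Λ) (hκ0 : 0 < κ₀) (hAVG : AvgI k m Λ κ₀) (hCTB : S_CTB) :
    FinI k m Λ (κ₀ / 2) := by
  classical
  intro η hη
  obtain ⟨X1, hX1⟩ := hCTB (k + 1) Λ (1 / 4) hΛ (by norm_num)
  obtain ⟨δ0, hδ0, X2, hX2⟩ := hAVG η hη
  refine ⟨δ0 / 2, by positivity, max X1 X2, fun X hX A hA hcard => ?_⟩
  have k1 := hX1 X (le_trans (le_max_left _ _) hX)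
  have k2 := hX2 X (le_trans (le_max_right _ _) hX) A hA hcard
  obtain ⟨κ, hκ⟩ : ∃ κ : ℝ, κ = 1 / Wm X * ((Wm X : ℝ) / Nat.totient (Wm X)) ^ (k + 1) :=
    ⟨_, rfl⟩
  have hκ0' : 0 ≤ κ := by
    rw [hκ]
    positivity
  have hT : ∀ T ∈ A.powersetCard (k + 1), (1 - 1 / 4) * (κ * gW X T) ≤ Pool.Agent.H387R2.Uni.CT T ∧
      Pool.Agent.H387R2.Uni.CT T ≤ (1 + 1 / 4) * (κ * gW X T) := by
    intro T hT
    rw [mem_powersetCard] at hT
    have h1 := k1 T hT.2 fun a ha => hA a (hT.1 ha)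
    have h2 : (gW X T : ℝ) / Wm X * ((Wm X : ℝ) / Nat.totient (Wm X)) ^ (k + 1) =
        κ * gW X T := by
      rw [hκ]
      ring
    rw [h2] at h1
    exact h1
  have hex : ∀ T : Finset ℕ, (gW X T : ℝ) * ex X (k + 1) =
      κ * gW X T * (X / Real.log X ^ (k + 1)) := by
    intro T
    have h1 : (Wm X : ℝ) / (Nat.totient (Wm X) * Real.log X) =
        (Wm X : ℝ) / Nat.totient (Wm X) / Real.log X := by
      rw [div_div]
    unfold ex
    rw [hκ, h1, div_pow]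
    ring
  have hCT0 : ∀ T : Finset ℕ, 0 ≤ Pool.Agent.H387R2.Uni.CT T := fun T =>
    Pool.Agent.H387R2.Uni.CT_nonneg T
  have hsub : (A.powersetCard (k + 1)).filter (fun T => ∀ r : ℕ,
      δ0 * ((gW X T : ℝ) * ex X (k + 1)) ≤ (cnTI m r X T : ℝ)) ⊆
      (A.powersetCard (k + 1)).filter (fun T => ∀ r : ℕ,
      δ0 / 2 * (Pool.Agent.H387R2.Uni.CT T * (X / Real.log X ^ (k + 1))) ≤ (cnTI m r X T : ℝ)) := by
    intro T hT'
    rw [mem_filter] at hT' ⊢
    refine ⟨hT'.1, fun r => le_trans ?_ (hT'.2 r)⟩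
    rw [hex]
    have h1 := (hT T hT'.1).2
    have h2 : 0 ≤ (X : ℝ) / Real.log X ^ (k + 1) := by
      have : 0 ≤ Real.log X := Real.log_natCast_nonneg X
      positivity
    have h3 : 0 ≤ κ * (gW X T : ℝ) := by positivity
    have h4 : Pool.Agent.H387R2.Uni.CT T ≤ 2 * (κ * gW X T) := by linarith
    calc δ0 / 2 * (Pool.Agent.H387R2.Uni.CT T * (X / Real.log X ^ (k + 1))) ≤
        δ0 / 2 * ((2 * (κ * gW X T)) * (X / Real.log X ^ (k + 1))) := by gcongr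
      _ = _ := by ring
  have hS1 : ∑ T ∈ (A.powersetCard (k + 1)).filter (fun T => ∀ r : ℕ,
      δ0 * ((gW X T : ℝ) * ex X (k + 1)) ≤ (cnTI m r X T : ℝ)), Pool.Agent.H387R2.Uni.CT T ≤
      ∑ T ∈ (A.powersetCard (k + 1)).filter (fun T => ∀ r : ℕ,
      δ0 / 2 * (Pool.Agent.H387R2.Uni.CT T * (X / Real.log X ^ (k + 1))) ≤ (cnTI m r X T : ℝ)),
      Pool.Agent.H387R2.Uni.CT T :=
    sum_le_sum_of_subset_of_nonneg hsub fun T _ _ => hCT0 T
  have hS2 : (1 - 1 / 4) * (κ * ∑ T ∈ (A.powersetCard (k + 1)).filter (fun T => ∀ r : ℕ,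
      δ0 * ((gW X T : ℝ) * ex X (k + 1)) ≤ (cnTI m r X T : ℝ)), (gW X T : ℝ)) ≤
      ∑ T ∈ (A.powersetCard (k + 1)).filter (fun T => ∀ r : ℕ,
      δ0 * ((gW X T : ℝ) * ex X (k + 1)) ≤ (cnTI m r X T : ℝ)), Pool.Agent.H387R2.Uni.CT T := by
    rw [mul_sum, mul_sum]
    exact sum_le_sum fun T hT' => (hT T (mem_filter.1 hT').1).1
  have hS3 : ∑ T ∈ A.powersetCard (k + 1), Pool.Agent.H387R2.Uni.CT T ≤
      (1 + 1 / 4) * (κ * ∑ T ∈ A.powersetCard (k + 1), (gW X T : ℝ)) := by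
    rw [mul_sum, mul_sum]
    exact sum_le_sum fun T hT' => (hT T hT').2
  obtain ⟨G, hG⟩ : ∃ G : ℝ, G = ∑ T ∈ A.powersetCard (k + 1), (gW X T : ℝ) := ⟨_, rfl⟩
  have hG0 : 0 ≤ G := by
    rw [hG]
    positivity
  rw [← hG] at hS3 k2
  have hκG : 0 ≤ κ * G := mul_nonneg hκ0' hG0
  have h1 : (1 - 1 / 4) * (κ * (κ₀ * G)) ≤
      (1 - 1 / 4) * (κ * ∑ T ∈ (A.powersetCard (k + 1)).filter (fun T => ∀ r : ℕ,
      δ0 * ((gW X T : ℝ) * ex X (k + 1)) ≤ (cnTI m r X T : ℝ)), (gW X T : ℝ)) := by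
    gcongr
  refine le_trans ?_ (h1.trans (hS2.trans hS1))
  calc κ₀ / 2 * ∑ T ∈ A.powersetCard (k + 1), Pool.Agent.H387R2.Uni.CT T ≤
      κ₀ / 2 * ((1 + 1 / 4) * (κ * G)) := mul_le_mul_of_nonneg_left hS3 (by positivity)
    _ = (5 / 8 * κ₀) * (κ * G) := by ring
    _ ≤ (3 / 4 * κ₀) * (κ * G) := by
        refine mul_le_mul_of_nonneg_right ?_ hκG
        nlinarith
    _ = _ := by ring

/-- **the final theorem** -/
theorem final (k m : ℕ) (hk : 1 ≤ k) (hm : 1 ≤ m) :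
    ∃ Λ κ : ℝ, 0 < Λ ∧ Λ ≤ 1 ∧ 0 < κ ∧ FinI k m Λ κ := by
  obtain ⟨Λ, c, hΛ, hΛ1, hc, hD⟩ := denI k m hk hm
  exact ⟨Λ, c / 4 / 2, hΛ, hΛ1, by positivity,
    finI k m Λ (c / 4) hΛ (by positivity) (avgI k m Λ c hc hD) ctb⟩

end Pool.Agent.L7h36.IX
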