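import Mathlib
import Pool.Agent.H152.HR.Ramsey

/-!
Index classes: the combinatorial part (helper36).
-/

set_option autoImplicit false

namespace Pool.Agent.L7h36.IX

open Finset Classical

/-- the sets of `w` elements of `V` all of whose subsets with `K` elements have the colour `col` -/
noncomputable def Hom {C : Type} (χ : Finset ℕ → C) (K w : ℕ) (V : Finset ℕ) (col : C) : Finset (Finset ℕ) :=
  (V.powersetCard w).filter (fun W => ∀ F ⊆ W, F.card = K → χ F = col)

theorem mem_Hom {C : Type} {χ : Finset ℕ → C} {K w : ℕ} {V : Finset ℕ} {col : C} {W : Finset ℕ} :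
    W ∈ Hom χ K w V col ↔ (W ⊆ V ∧ W.card = w) ∧ ∀ F ⊆ W, F.card = K → χ F = col := by
  unfold Hom
  rw [mem_filter, mem_powersetCard]

theorem over_le (V B : Finset ℕ) (R : ℕ) (hV : 1 ≤ V.card) :
    (((V.powersetCard R).filter (fun S => B ⊆ S)).card : ℝ) ≤ (V.card : ℝ) ^ R / (V.card : ℝ) ^ B.card := by
  have hn : (0 : ℝ) < V.card := by exact_mod_cast hV
  by_cases h : B.card ≤ R
  · have h1 : ((V.powersetCard R).filter (fun S => B ⊆ S)).card ≤ (V.powersetCard (R - B.card)).card := by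
      apply card_le_card_of_injOn (fun S => S \ B)
      · intro S hS
        obtain ⟨h2, h3⟩ := mem_filter.1 (mem_coe.1 hS)
        obtain ⟨h4, h5⟩ := mem_powersetCard.1 h2
        rw [mem_coe, mem_powersetCard]
        exact ⟨sdiff_subset.trans h4, by rw [card_sdiff_of_subset h3, h5]⟩
      · intro S hS S' hS' h2
        have h3 := (mem_filter.1 (mem_coe.1 hS)).2
        have h3' := (mem_filter.1 (mem_coe.1 hS')).2
        have h4 : S \ B = S' \ B := h2
        rw [← sdiff_union_of_subset h3, ← sdiff_union_of_subset h3', h4]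
    rw [card_powersetCard] at h1
    have h2 := h1.trans (Nat.choose_le_pow _ _)
    have h3 : (V.card : ℝ) ^ R / (V.card : ℝ) ^ B.card = (V.card : ℝ) ^ (R - B.card) := by
      rw [pow_sub₀ _ hn.ne' h, div_eq_mul_inv]
    rw [h3]
    exact_mod_cast h2
  · have h1 : (V.powersetCard R).filter (fun S => B ⊆ S) = ∅ := by
      apply filter_eq_empty_iff.2
      intro S hS hB
      have := card_le_card hB
      rw [(mem_powersetCard.1 hS).2] at this
      exact h this
    rw [h1, card_empty, Nat.cast_zero]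
    positivity

theorem many_mono (m K M w : ℕ) (hm : 1 ≤ m) : ∃ (ε₁ c : ℝ) (n₀ : ℕ), 0 < ε₁ ∧ 0 < c ∧
    ∀ (χ : Finset ℕ → Option (Fin m)) (V : Finset ℕ), n₀ ≤ V.card →
      ((Hom χ K M V none).card : ℝ) ≤ ε₁ * (V.card : ℝ) ^ M →
      ∃ col : Fin m, c * (V.card : ℝ) ^ w ≤ ((Hom χ K w V (some col)).card : ℝ) := by
  obtain ⟨R, hR⟩ := H152HR.ramsey (Option (Fin m)) K (max M w)
  obtain ⟨D, hD⟩ : ∃ D : ℝ, D = 2 ^ R * (R.factorial : ℝ) := ⟨_, rfl⟩
  have hD0 : 0 < D := by rw [hD]; positivity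
  have hm0 : (0 : ℝ) < m := by exact_mod_cast hm
  refine ⟨1 / (2 * D), 1 / (2 * D * m), 2 * R + 2, by positivity, by positivity, fun χ V hV hbad => ?_⟩
  obtain ⟨n, hn⟩ : ∃ n : ℝ, n = (V.card : ℝ) := ⟨_, rfl⟩
  have hV1 : 1 ≤ V.card := by omega
  have hn0 : 0 < n := by
    rw [hn]
    exact_mod_cast hV1
  have h1 : n ^ R / D ≤ (((V.powersetCard R).card : ℕ) : ℝ) := by
    rw [card_powersetCard]
    refine le_trans ?_ (Nat.pow_le_choose R V.card)
    have h2 : n / 2 ≤ ((V.card + 1 - R : ℕ) : ℝ) := by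
      have h3 : V.card ≤ 2 * (V.card + 1 - R) := by omega
      have h4 : (V.card : ℝ) ≤ 2 * ((V.card + 1 - R : ℕ) : ℝ) := by exact_mod_cast h3
      rw [hn]
      linarith
    have h3 : n ^ R / D = (n / 2) ^ R / R.factorial := by
      rw [hD, div_pow, div_div]
    rw [h3]
    gcongr
  have hcov : V.powersetCard R ⊆
      ((Hom χ K M V none).biUnion (fun B => (V.powersetCard R).filter (fun S => B ⊆ S))) ∪
      (univ.biUnion (fun col : Fin m => (Hom χ K w V (some col)).biUnion
        (fun B => (V.powersetCard R).filter (fun S => B ⊆ S)))) := by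
    intro S hS
    obtain ⟨hS1, hS2⟩ := mem_powersetCard.1 hS
    obtain ⟨Q, hQ, hQc, col, hcol⟩ := hR χ S hS2.ge
    rw [mem_union]
    rcases col with _ | col
    · left
      obtain ⟨B, hB, hBc⟩ := exists_subset_card_eq (show M ≤ Q.card by rw [hQc]; exact le_max_left _ _)
      rw [mem_biUnion]
      exact ⟨B, mem_Hom.2 ⟨⟨(hB.trans hQ).trans hS1, hBc⟩, fun F hF hFc => hcol F (hF.trans hB) hFc⟩,
        mem_filter.2 ⟨hS, hB.trans hQ⟩⟩
    · right
      obtain ⟨B, hB, hBc⟩ := exists_subset_card_eq (show w ≤ Q.card by rw [hQc]; exact le_max_right _ _)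
      rw [mem_biUnion]
      refine ⟨col, mem_univ _, ?_⟩
      rw [mem_biUnion]
      exact ⟨B, mem_Hom.2 ⟨⟨(hB.trans hQ).trans hS1, hBc⟩, fun F hF hFc => hcol F (hF.trans hB) hFc⟩,
        mem_filter.2 ⟨hS, hB.trans hQ⟩⟩
  have h2 : (((V.powersetCard R).card : ℕ) : ℝ) ≤
      ∑ B ∈ Hom χ K M V none, (((V.powersetCard R).filter (fun S => B ⊆ S)).card : ℝ) +
      ∑ col : Fin m, ∑ B ∈ Hom χ K w V (some col), (((V.powersetCard R).filter (fun S => B ⊆ S)).card : ℝ) := by
    have h3 := (card_le_card hcov).trans ((card_union_le _ _).trans (Nat.add_le_add card_biUnion_le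
      (card_biUnion_le.trans (sum_le_sum fun col _ => card_biUnion_le))))
    exact_mod_cast h3
  have h3 : ∑ B ∈ Hom χ K M V none, (((V.powersetCard R).filter (fun S => B ⊆ S)).card : ℝ) ≤
      1 / (2 * D) * n ^ R := by
    calc ∑ B ∈ Hom χ K M V none, (((V.powersetCard R).filter (fun S => B ⊆ S)).card : ℝ)
        ≤ ∑ B ∈ Hom χ K M V none, n ^ R / n ^ M := by
          apply sum_le_sum
          intro B hB
          have h4 := over_le V B R hV1
          have h5 : B.card = M := (mem_Hom.1 hB).1.2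
          rw [h5, ← hn] at h4
          exact h4
      _ = ((Hom χ K M V none).card : ℝ) * (n ^ R / n ^ M) := by rw [sum_const, nsmul_eq_mul]
      _ ≤ (1 / (2 * D) * n ^ M) * (n ^ R / n ^ M) := by
          rw [← hn] at hbad
          gcongr
      _ = 1 / (2 * D) * n ^ R := by field_simp
  have h4 : ∀ col : Fin m, ∑ B ∈ Hom χ K w V (some col), (((V.powersetCard R).filter (fun S => B ⊆ S)).card : ℝ) ≤
      ((Hom χ K w V (some col)).card : ℝ) * (n ^ R / n ^ w) := by
    intro col
    calc ∑ B ∈ Hom χ K w V (some col), (((V.powersetCard R).filter (fun S => B ⊆ S)).card : ℝ)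
        ≤ ∑ B ∈ Hom χ K w V (some col), n ^ R / n ^ w := by
          apply sum_le_sum
          intro B hB
          have h4 := over_le V B R hV1
          have h5 : B.card = w := (mem_Hom.1 hB).1.2
          rw [h5, ← hn] at h4
          exact h4
      _ = _ := by rw [sum_const, nsmul_eq_mul]
  by_contra hcon
  push Not at hcon
  have h5 : ∑ col : Fin m, ∑ B ∈ Hom χ K w V (some col), (((V.powersetCard R).filter (fun S => B ⊆ S)).card : ℝ) <
      ∑ _col : Fin m, 1 / (2 * D * m) * n ^ w * (n ^ R / n ^ w) := by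
    apply sum_lt_sum_of_nonempty
    · exact ⟨⟨0, by omega⟩, mem_univ _⟩
    · intro col _
      refine (h4 col).trans_lt ?_
      have h6 := hcon col
      rw [← hn] at h6
      exact mul_lt_mul_of_pos_right h6 (by positivity)
  have h6 : ∑ _col : Fin m, 1 / (2 * D * m) * n ^ w * (n ^ R / n ^ w) = 1 / (2 * D) * n ^ R := by
    rw [sum_const, card_univ, Fintype.card_fin, nsmul_eq_mul]
    field_simp
  have h7 : n ^ R / D = 1 / (2 * D) * n ^ R + 1 / (2 * D) * n ^ R := by
    field_simp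
    ring
  linarith

/-- the rank of `x` in `W` -/
noncomputable def rk (W : Finset ℕ) (x : ℕ) : ℕ := (W.filter (fun y => y < x)).card

theorem rk_mono (W : Finset ℕ) {x y : ℕ} (h : x ≤ y) : rk W x ≤ rk W y := by
  apply card_le_card
  intro z hz
  rw [mem_filter] at hz ⊢
  exact ⟨hz.1, by omega⟩

theorem rk_lt (W : Finset ℕ) {x y : ℕ} (hx : x ∈ W) (h : x < y) : rk W x < rk W y := by
  apply card_lt_card
  refine ⟨fun z hz => ?_, fun h' => ?_⟩
  · rw [mem_filter] at hz ⊢
    exact ⟨hz.1, by omega⟩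
  · have h1 := h' (mem_filter.2 ⟨hx, h⟩)
    rw [mem_filter] at h1
    omega

theorem rk_lt_card (W : Finset ℕ) {x : ℕ} (hx : x ∈ W) : rk W x < W.card := by
  apply card_lt_card
  refine ⟨filter_subset _ _, fun h' => ?_⟩
  have h1 := h' hx
  rw [mem_filter] at h1
  omega

theorem rk_inj (W : Finset ℕ) : Set.InjOn (rk W) (W : Set ℕ) := by
  intro x hx y hy h
  rcases lt_trichotomy x y with h1 | h1 | h1
  · have := rk_lt W (mem_coe.1 hx) h1
    omega
  · exact h1
  · have := rk_lt W (mem_coe.1 hy) h1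
    omega

theorem rk_image (W : Finset ℕ) : W.image (rk W) = range W.card := by
  apply eq_of_subset_of_card_le
  · intro r hr
    obtain ⟨x, hx, rfl⟩ := mem_image.1 hr
    exact mem_range.2 (rk_lt_card W hx)
  · rw [card_range, card_image_of_injOn (rk_inj W)]

/-- the elements of the ranks `a, …, b - 1` -/
noncomputable def blk (W : Finset ℕ) (a b : ℕ) : Finset ℕ := W.filter (fun x => a ≤ rk W x ∧ rk W x < b)

theorem blk_sub (W : Finset ℕ) (a b : ℕ) : blk W a b ⊆ W := filter_subset _ _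

theorem blk_card (W : Finset ℕ) (a b : ℕ) (hb : b ≤ W.card) : (blk W a b).card = b - a := by
  have h1 : (blk W a b).image (rk W) = Ico a b := by
    ext r
    rw [mem_image, mem_Ico]
    constructor
    · rintro ⟨x, hx, rfl⟩
      exact (mem_filter.1 hx).2
    · rintro ⟨h1, h2⟩
      have h3 : r ∈ W.image (rk W) := by
        rw [rk_image]
        exact mem_range.2 (by omega)
      obtain ⟨x, hx, rfl⟩ := mem_image.1 h3
      exact ⟨x, mem_filter.2 ⟨hx, h1, h2⟩, rfl⟩
  have h2 : Set.InjOn (rk W) (blk W a b : Set ℕ) := (rk_inj W).mono (by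
    intro x hx
    exact mem_coe.2 (blk_sub W a b (mem_coe.1 hx)))
  rw [← card_image_of_injOn h2, h1, Nat.card_Ico]

/-- `T` consists of consecutive elements of `F`, after exactly `i` smaller ones -/
def Pos (i : ℕ) (F T : Finset ℕ) : Prop := T ⊆ F ∧
  (∀ f ∈ F, (∃ a ∈ T, a ≤ f) → (∃ a ∈ T, f ≤ a) → f ∈ T) ∧
  ∀ t ∈ T, (∀ u ∈ T, t ≤ u) → (F.filter (fun f => f < t)).card = i

theorem blk_pos (k m i : ℕ) (hi : i < m) (W : Finset ℕ) (hW : W.card = k + 1 + 2 * (m - 1)) :
    Pos i (blk W (m - 1 - i) (2 * m + k - 1 - i)) (blk W (m - 1) (m + k)) := by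
  refine ⟨?_, ?_, ?_⟩
  · intro x hx
    unfold blk at hx ⊢
    rw [mem_filter] at hx ⊢
    exact ⟨hx.1, by omega, by omega⟩
  · rintro f hf ⟨a, ha, haf⟩ ⟨a', ha', haf'⟩
    unfold blk at hf ha ha' ⊢
    rw [mem_filter] at hf ha ha' ⊢
    have h1 := rk_mono W haf
    have h2 := rk_mono W haf'
    exact ⟨hf.1, by omega, by omega⟩
  · intro t ht hmin
    have h0 : m - 1 ∈ W.image (rk W) := by
      rw [rk_image]
      exact mem_range.2 (by omega)
    obtain ⟨u, hu, hu2⟩ := mem_image.1 h0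
    have h1 : u ∈ blk W (m - 1) (m + k) := mem_filter.2 ⟨hu, by omega, by omega⟩
    have h2 := rk_mono W (hmin u h1)
    obtain ⟨ht1, ht2, ht3⟩ := mem_filter.1 ht
    have h3 : rk W t = m - 1 := by omega
    have h4 : (blk W (m - 1 - i) (2 * m + k - 1 - i)).filter (fun f => f < t) =
        blk W (m - 1 - i) (m - 1) := by
      ext f
      unfold blk
      rw [mem_filter, mem_filter, mem_filter]
      constructor
      · rintro ⟨⟨h5, h6, h7⟩, h8⟩
        have := rk_lt W h5 h8
        exact ⟨h5, h6, by omega⟩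
      · rintro ⟨h5, h6, h7⟩
        refine ⟨⟨h5, h6, by omega⟩, ?_⟩
        by_contra h8
        have := rk_mono W (not_lt.1 h8)
        omega
    rw [h4, blk_card W _ _ (by omega)]
    omega

theorem middle (k m : ℕ) (hm : 1 ≤ m) (V : Finset ℕ) (hV : 1 ≤ V.card) {C : Type} (χ : Finset ℕ → C)
    (col : C) (c : ℝ) (hc : 0 < c)
    (h : c * (V.card : ℝ) ^ (k + 1 + 2 * (m - 1)) ≤
      ((Hom χ (k + m) (k + 1 + 2 * (m - 1)) V col).card : ℝ)) :
    c / 2 * (V.card : ℝ) ^ (k + 1) ≤ (((V.powersetCard (k + 1)).filter (fun T => ∀ i < m,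
      c / 2 * (V.card : ℝ) ^ (m - 1) ≤
        (((V.powersetCard (k + m)).filter (fun F => χ F = col ∧ Pos i F T)).card : ℝ))).card : ℝ) := by
  obtain ⟨w, hw⟩ : ∃ w, w = k + 1 + 2 * (m - 1) := ⟨_, rfl⟩
  rw [← hw] at h
  obtain ⟨n, hn⟩ : ∃ n : ℝ, n = (V.card : ℝ) := ⟨_, rfl⟩
  have hn0 : 0 < n := by
    rw [hn]
    exact_mod_cast hV
  rw [← hn] at h ⊢
  set 𝒲 := Hom χ (k + m) w V col with h𝒲
  have hmem : ∀ W ∈ 𝒲, W ⊆ V ∧ W.card = w ∧ ∀ F ⊆ W, F.card = k + m → χ F = col := by
    intro W hW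
    rw [h𝒲] at hW
    have h0 := mem_Hom.1 hW
    exact ⟨h0.1.1, h0.1.2, h0.2⟩
  set g : Finset ℕ → ℕ := fun T => (𝒲.filter (fun W => blk W (m - 1) (m + k) = T)).card with hg
  have hsum : ∑ T ∈ V.powersetCard (k + 1), (g T : ℝ) = (𝒲.card : ℝ) := by
    rw [card_eq_sum_card_fiberwise (f := fun W => blk W (m - 1) (m + k)) (t := V.powersetCard (k + 1))]
    · rw [Nat.cast_sum]
    · intro W hW
      obtain ⟨h1, h2, -⟩ := hmem W (mem_coe.1 hW)
      rw [mem_coe, mem_powersetCard]
      refine ⟨(blk_sub _ _ _).trans h1, ?_⟩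
      rw [blk_card W _ _ (by omega)]
      omega
  -- the bound for all `T`
  have hg1 : ∀ T ∈ V.powersetCard (k + 1), (g T : ℝ) ≤ n ^ w / n ^ (k + 1) := by
    intro T hT
    have h1 := over_le V T w hV
    rw [(mem_powersetCard.1 hT).2, ← hn] at h1
    refine le_trans ?_ h1
    rw [hg]
    have h2 : 𝒲.filter (fun W => blk W (m - 1) (m + k) = T) ⊆ (V.powersetCard w).filter (fun S => T ⊆ S) := by
      intro W hW
      obtain ⟨h3, h4⟩ := mem_filter.1 hW
      obtain ⟨h5, h6, -⟩ := hmem W h3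
      rw [mem_filter, mem_powersetCard]
      exact ⟨⟨h5, h6⟩, h4 ▸ blk_sub _ _ _⟩
    exact_mod_cast card_le_card h2
  -- the bound for the bad `T`
  have hg2 : ∀ T ∈ V.powersetCard (k + 1), (¬ ∀ i < m, c / 2 * n ^ (m - 1) ≤
      (((V.powersetCard (k + m)).filter (fun F => χ F = col ∧ Pos i F T)).card : ℝ)) →
      (g T : ℝ) ≤ c / 2 * (n ^ w / n ^ (k + 1)) := by
    intro T hT hbad
    push Not at hbad
    obtain ⟨i, hi, hi2⟩ := hbad
    have h1 : 𝒲.filter (fun W => blk W (m - 1) (m + k) = T) ⊆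
        ((V.powersetCard (k + m)).filter (fun F => χ F = col ∧ Pos i F T)).biUnion
          (fun F => (V.powersetCard w).filter (fun S => F ⊆ S)) := by
      intro W hW
      obtain ⟨h3, h4⟩ := mem_filter.1 hW
      obtain ⟨h5, h6, h7⟩ := hmem W h3
      rw [mem_biUnion]
      have h8 := blk_card W (m - 1 - i) (2 * m + k - 1 - i) (by omega)
      have h9 := blk_pos k m i hi W (by omega)
      rw [h4] at h9
      refine ⟨blk W (m - 1 - i) (2 * m + k - 1 - i), ?_, ?_⟩
      · rw [mem_filter, mem_powersetCard]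
        have h10 : (blk W (m - 1 - i) (2 * m + k - 1 - i)).card = k + m := by omega
        exact ⟨⟨(blk_sub _ _ _).trans h5, h10⟩, h7 _ (blk_sub _ _ _) h10, h9⟩
      · rw [mem_filter, mem_powersetCard]
        exact ⟨⟨h5, h6⟩, blk_sub _ _ _⟩
    have h2 : (g T : ℝ) ≤ ∑ F ∈ (V.powersetCard (k + m)).filter (fun F => χ F = col ∧ Pos i F T),
        (((V.powersetCard w).filter (fun S => F ⊆ S)).card : ℝ) := by
      have h3 := (card_le_card h1).trans card_biUnion_le
      rw [hg]
      exact_mod_cast h3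
    have h3 : ∑ F ∈ (V.powersetCard (k + m)).filter (fun F => χ F = col ∧ Pos i F T),
        (((V.powersetCard w).filter (fun S => F ⊆ S)).card : ℝ) ≤
        ∑ _F ∈ (V.powersetCard (k + m)).filter (fun F => χ F = col ∧ Pos i F T), n ^ w / n ^ (k + m) := by
      apply sum_le_sum
      intro F hF
      have h4 := over_le V F w hV
      rw [(mem_powersetCard.1 (mem_filter.1 hF).1).2, ← hn] at h4
      exact h4
    rw [sum_const, nsmul_eq_mul] at h3
    refine h2.trans (h3.trans ?_)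
    calc (((V.powersetCard (k + m)).filter (fun F => χ F = col ∧ Pos i F T)).card : ℝ) * (n ^ w / n ^ (k + m))
        ≤ (c / 2 * n ^ (m - 1)) * (n ^ w / n ^ (k + m)) := by gcongr
      _ = c / 2 * (n ^ w / n ^ (k + 1)) := by
        have h5 : n ^ (k + m) = n ^ (k + 1) * n ^ (m - 1) := by
          rw [← pow_add]
          congr 1
          omega
        rw [h5]
        field_simp
  -- sum up
  set Gd := (V.powersetCard (k + 1)).filter (fun T => ∀ i < m, c / 2 * n ^ (m - 1) ≤
      (((V.powersetCard (k + m)).filter (fun F => χ F = col ∧ Pos i F T)).card : ℝ)) with hGd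
  have hsplit : ∑ T ∈ V.powersetCard (k + 1), (g T : ℝ) ≤
      (Gd.card : ℝ) * (n ^ w / n ^ (k + 1)) + n ^ (k + 1) * (c / 2 * (n ^ w / n ^ (k + 1))) := by
    rw [← sum_filter_add_sum_filter_not (V.powersetCard (k + 1)) (fun T => ∀ i < m, c / 2 * n ^ (m - 1) ≤
      (((V.powersetCard (k + m)).filter (fun F => χ F = col ∧ Pos i F T)).card : ℝ))]
    apply add_le_add
    · calc ∑ T ∈ Gd, (g T : ℝ) ≤ ∑ _T ∈ Gd, n ^ w / n ^ (k + 1) :=
            sum_le_sum fun T hT => hg1 T (mem_filter.1 hT).1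
        _ = _ := by rw [sum_const, nsmul_eq_mul]
    · refine (sum_le_sum fun T hT => hg2 T (mem_filter.1 hT).1 (mem_filter.1 hT).2).trans ?_
      rw [sum_const, nsmul_eq_mul]
      have h1 : (((V.powersetCard (k + 1)).filter (fun T => ¬ ∀ i < m, c / 2 * n ^ (m - 1) ≤
          (((V.powersetCard (k + m)).filter (fun F => χ F = col ∧ Pos i F T)).card : ℝ))).card : ℝ) ≤
          n ^ (k + 1) := by
        have h2 := (card_filter_le (V.powersetCard (k + 1)) (fun T => ¬ ∀ i < m, c / 2 * n ^ (m - 1) ≤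
          (((V.powersetCard (k + m)).filter (fun F => χ F = col ∧ Pos i F T)).card : ℝ)))
        rw [card_powersetCard] at h2
        have h3 := h2.trans (Nat.choose_le_pow _ _)
        have h4 : ((V.card ^ (k + 1) : ℕ) : ℝ) = n ^ (k + 1) := by
          rw [hn, Nat.cast_pow]
        rw [← h4]
        exact Nat.cast_le.2 h3
      exact mul_le_mul_of_nonneg_right h1 (by positivity)
  rw [hsum] at hsplit
  have h1 : c * n ^ w ≤ (Gd.card : ℝ) * (n ^ w / n ^ (k + 1)) + c / 2 * n ^ w := by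
    refine (h.trans hsplit).trans (le_of_eq ?_)
    congr 1
    field_simp
  have h2 : c / 2 * n ^ w ≤ (Gd.card : ℝ) * (n ^ w / n ^ (k + 1)) := by linarith
  rw [mul_div_assoc', le_div_iff₀ (by positivity)] at h2
  have h3 : (c / 2 * n ^ (k + 1)) * n ^ w ≤ (Gd.card : ℝ) * n ^ w := by linarith [h2]
  exact le_of_mul_le_mul_right h3 (by positivity)

end Pool.Agent.L7h36.IX
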