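import Pool.Agent.L7h36.IX.Idx
import Pool.Agent.W70.HRC.Asm

/-!
Index classes: one class of shifts (helper36).
-/

set_option autoImplicit false

namespace Pool.Agent.L7h36.IX

open Finset Classical
open Pool.Agent.H361R2.PP Pool.Agent.W70.HR Pool.Agent.W70.HRC
open Pool.Agent.W131.HR (Wpos)

theorem hom_le (k T K m : ℕ) (χ : Finset ℕ → Option (Fin m)) (G : Finset ℕ → Prop) (V : Finset ℕ)
    (hG : ∀ F, F.card = k + 1 → G F → χ F ≠ none) :
    (Hom χ (k + 1) (T * K) V none).card ≤ (ExC G k T K V).card := by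
  have h1 : Hom χ (k + 1) (T * K) V none ⊆
      (ExC G k T K V).image (fun H => univ.image (fun x : Fin T × Fin K => H x.1 x.2)) := by
    intro B hB
    obtain ⟨⟨hB1, hB2⟩, hB3⟩ := mem_Hom.1 hB
    rw [mem_image]
    obtain ⟨H, hH⟩ : ∃ H : Fin T → Fin K → ℕ, H = fun g i => B.orderEmbOfFin hB2 (finProdFinEquiv (g, i)) :=
      ⟨_, rfl⟩
    have hinj : Function.Injective (fun x : Fin T × Fin K => H x.1 x.2) := by
      intro x y hxy
      rw [hH] at hxy
      have h2 := (B.orderEmbOfFin hB2).injective hxy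
      exact finProdFinEquiv.injective h2
    have hmem : ∀ g i, H g i ∈ B := by
      intro g i
      rw [hH]
      exact orderEmbOfFin_mem B hB2 _
    refine ⟨H, ?_, ?_⟩
    · unfold ExC
      rw [mem_filter, Fintype.mem_piFinset]
      refine ⟨fun g => Fintype.mem_piFinset.2 fun i => hB1 (hmem g i), hinj, ?_⟩
      rintro ⟨S, c, hS, hG'⟩
      have h2 : (S.image (fun g => H g (c g))).card = k + 1 := by
        rw [card_image_of_injective, hS]
        intro g g' hgg'
        have h3 := hinj (a₁ := (g, c g)) (a₂ := (g', c g')) hgg'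
        exact congrArg Prod.fst h3
      refine hG _ h2 hG' (hB3 _ ?_ h2)
      intro y hy
      obtain ⟨g, -, rfl⟩ := mem_image.1 hy
      exact hmem _ _
    · apply eq_of_subset_of_card_le
      · intro y hy
        obtain ⟨x, -, rfl⟩ := mem_image.1 hy
        exact hmem _ _
      · rw [card_image_of_injective _ hinj, card_univ, Fintype.card_prod, Fintype.card_fin,
          Fintype.card_fin, hB2]
  exact (card_le_card h1).trans card_image_le

/-- many sets of `k + 1` positions are good for all the classes of the index -/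
def DenI (k m : ℕ) (Λ c : ℝ) : Prop := ∀ η : ℝ, 0 < η → ∃ δ : ℝ, 0 < δ ∧ ∃ X₀ : ℕ, ∀ X : ℕ, X₀ ≤ X →
  ∀ b : ℕ, b < Wm X → ∀ V ⊆ Bw Λ X b,
  η * (Real.log X * (Nat.totient (Wm X) / Wm X)) ≤ (V.card : ℝ) →
  c * (V.card : ℝ) ^ (k + 1) ≤ (((V.powersetCard (k + 1)).filter
    (fun T => ∀ r : ℕ, δ * ex X (k + 1) ≤ (cnI m r X b T : ℝ))).card : ℝ)

theorem denI (k m : ℕ) (hk : 1 ≤ k) (hm : 1 ≤ m) :
    ∃ Λ c : ℝ, 0 < Λ ∧ Λ ≤ 1 ∧ 0 < c ∧ DenI k m Λ c := by
  obtain ⟨k', hk'⟩ : ∃ k', k' + 1 = k + m := ⟨k + m - 1, by omega⟩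
  obtain ⟨K, hK, Λ, hΛ, hΛ1, hMT⟩ := mtck k' (by omega)
  obtain ⟨T, hT⟩ : ∃ T, T = 8 * k' ^ 2 + 1 := ⟨_, rfl⟩
  rw [← hT] at hMT
  have hT1 : 1 ≤ T := by omega
  have hm0 : (0 : ℝ) < m := by exact_mod_cast hm
  obtain ⟨ε₁, c, n₀, hε₁, hc, hmono⟩ := many_mono m (k' + 1) (T * K) (k + 1 + 2 * (m - 1)) hm
  refine ⟨Λ, c / 2, hΛ, hΛ1, by positivity, fun η hη => ?_⟩
  obtain ⟨δ, hδ, X₁, hX₁⟩ := Pool.Agent.W407.HRC.exc mv Pool.Agent.H325R2.wtx k' T K Λ hT1 hK hΛ hMT
    η ε₁ hη hε₁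
  obtain ⟨X₂, hX₂⟩ := Pool.Agent.W12.HR.large Pool.Agent.H325R2.wtx η hη (n₀ + 1)
  refine ⟨c / 2 * η ^ (m - 1) * (δ / m), by positivity, max X₁ (max X₂ 3), fun X hX b hb V hV hcard => ?_⟩
  have hXa : X₁ ≤ X := (le_max_left _ _).trans hX
  have hXb : X₂ ≤ X := (le_max_left _ _).trans ((le_max_right _ _).trans hX)
  have hXc : 3 ≤ X := (le_max_right _ _).trans ((le_max_right _ _).trans hX)
  have hV0 : n₀ + 1 ≤ V.card := by exact_mod_cast (hX₂ X hXb).trans hcard
  have hL : 0 < Real.log X := Real.log_pos (by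
    have : (3 : ℝ) ≤ X := by exact_mod_cast hXc
    linarith)
  have hW0 : (0 : ℝ) < Wm X := by exact_mod_cast Wpos X
  have hφ0 : (0 : ℝ) < Nat.totient (Wm X) := by exact_mod_cast Nat.totient_pos.2 (Wpos X)
  have hex0 : 0 ≤ ex X (k' + 1) := by
    unfold ex
    positivity
  -- the colours
  obtain ⟨χ, hχ⟩ : ∃ χ : Finset ℕ → Option (Fin m), χ = fun F =>
      if h : ∃ c : Fin m, δ * ex X (k' + 1) / m ≤ (cnI m c X b F : ℝ) then some h.choose else none := ⟨_, rfl⟩
  have hχ1 : ∀ F, F.card = k' + 1 → δ * ex X (k' + 1) ≤ (cnB X b F : ℝ) → χ F ≠ none := by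
    intro F hF hG
    have h1 := pop hm F (card_pos.1 (by omega)) _ hG
    rw [hχ]
    simp only [dif_pos h1]
    exact Option.some_ne_none _
  have hχ2 : ∀ F (c : Fin m), χ F = some c → δ * ex X (k' + 1) / m ≤ (cnI m c X b F : ℝ) := by
    intro F c' hF
    rw [hχ] at hF
    by_cases h : ∃ c : Fin m, δ * ex X (k' + 1) / m ≤ (cnI m c X b F : ℝ)
    · simp only [dif_pos h] at hF
      have h2 := h.choose_spec
      rw [Option.some.inj hF] at h2
      exact h2
    · simp only [dif_neg h] at hF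
      exact absurd hF (by simp)
  have h1 := hom_le k' T K m χ (fun F => δ * ex X (k' + 1) ≤ (cnB X b F : ℝ)) V hχ1
  have h2 : ((Hom χ (k' + 1) (T * K) V none).card : ℝ) ≤ ε₁ * (V.card : ℝ) ^ (T * K) := by
    have h3 : ((Hom χ (k' + 1) (T * K) V none).card : ℝ) ≤
        ((ExC (fun F => δ * ex X (k' + 1) ≤ (cnB X b F : ℝ)) k' T K V).card : ℝ) := by exact_mod_cast h1
    exact h3.trans (hX₁ X hXa b hb V hV hcard)
  obtain ⟨col, hcol⟩ := hmono χ V (by omega) h2
  rw [hk'] at hcol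
  have h3 := middle k m hm V (by omega) χ (some col) c hc hcol
  refine h3.trans ?_
  apply Nat.cast_le.2
  apply card_le_card
  intro S hS
  obtain ⟨hS1, hS2⟩ := mem_filter.1 hS
  refine mem_filter.2 ⟨hS1, fun r => ?_⟩
  have hSne : S.Nonempty := card_pos.1 (by rw [(mem_powersetCard.1 hS1).2]; omega)
  obtain ⟨i, hi, hir⟩ : ∃ i < m, (col : ℕ) + i ≡ r [MOD m] := by
    refine ⟨(r + (m - col)) % m, Nat.mod_lt _ hm, ?_⟩
    have h4 : (col : ℕ) + (r + (m - col)) % m ≡ (col : ℕ) + (r + (m - col)) [MOD m] :=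
      Nat.ModEq.add_left _ (Nat.mod_modEq _ _)
    have h5 : (col : ℕ) + (r + (m - col)) = r + m := by
      have := col.2
      omega
    rw [h5] at h4
    exact h4.trans (by simp [Nat.ModEq])
  have h4 := hS2 i hi
  have h5 := sum_le_cnI (m := m) (c := col) (r := r) (i := i) (K := k + m) (X := X) (b := b) S hSne
    ((V.powersetCard (k + m)).filter (fun F => χ F = some col ∧ Pos i F S)) (by
      intro F hF
      obtain ⟨h6, h7⟩ := mem_filter.1 hF
      exact ⟨(mem_powersetCard.1 h6).2, h7.2⟩) hir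
  have h6 : (((V.powersetCard (k + m)).filter (fun F => χ F = some col ∧ Pos i F S)).card : ℝ) *
      (δ * ex X (k' + 1) / m) ≤ (cnI m r X b S : ℝ) := by
    have h7 : (((V.powersetCard (k + m)).filter (fun F => χ F = some col ∧ Pos i F S)).card : ℝ) *
        (δ * ex X (k' + 1) / m) ≤
        ∑ F ∈ (V.powersetCard (k + m)).filter (fun F => χ F = some col ∧ Pos i F S), (cnI m col X b F : ℝ) := by
      rw [← nsmul_eq_mul, ← sum_const]
      apply sum_le_sum
      intro F hF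
      exact hχ2 F col (mem_filter.1 hF).2.1
    refine h7.trans ?_
    exact_mod_cast h5
  refine le_trans ?_ h6
  have h8 : c / 2 * (η * (Real.log X * (Nat.totient (Wm X) / Wm X))) ^ (m - 1) ≤
      (((V.powersetCard (k + m)).filter (fun F => χ F = some col ∧ Pos i F S)).card : ℝ) := by
    refine le_trans ?_ (h4.trans (le_of_eq (by congr)))
    gcongr
  have h9 : ex X (k' + 1) = ex X (k + 1) * ((Wm X : ℝ) / (Nat.totient (Wm X) * Real.log X)) ^ (m - 1) := by
    unfold ex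
    rw [mul_assoc, ← pow_add]
    congr 2
    omega
  have h10 : (Real.log X * (Nat.totient (Wm X) / Wm X)) ^ (m - 1) *
      ((Wm X : ℝ) / (Nat.totient (Wm X) * Real.log X)) ^ (m - 1) = 1 := by
    rw [← mul_pow]
    have : Real.log X * (Nat.totient (Wm X) / Wm X) * ((Wm X : ℝ) / (Nat.totient (Wm X) * Real.log X)) = 1 := by
      field_simp
    rw [this, one_pow]
  calc c / 2 * η ^ (m - 1) * (δ / m) * ex X (k + 1)
      = c / 2 * η ^ (m - 1) * (δ / m) * ex X (k + 1) *
        ((Real.log X * (Nat.totient (Wm X) / Wm X)) ^ (m - 1) *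
          ((Wm X : ℝ) / (Nat.totient (Wm X) * Real.log X)) ^ (m - 1)) := by rw [h10, mul_one]
    _ = (c / 2 * (η * (Real.log X * (Nat.totient (Wm X) / Wm X))) ^ (m - 1)) * (δ * ex X (k' + 1) / m) := by
        rw [h9, mul_pow]
        ring
    _ ≤ _ := by
        apply mul_le_mul_of_nonneg_right h8
        positivity

end Pool.Agent.L7h36.IX
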