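import Pool.Agent.L7h36.IX.Cmb
import Pool.Agent.W70.HRC.Stm

/-!
Index classes: consecutive primes and their indices (helper36).
-/

set_option autoImplicit false

namespace Pool.Agent.L7h36.IX

open Finset Classical
open Pool.Agent.H361R2.PP Pool.Agent.W70.HR Pool.Agent.W70.HRC

/-- the smallest of the primes `n + t`, `t ∈ T`, is the `i`-th prime with `i ≡ r` modulo `m` -/
def Idx (m r n : ℕ) (T : Finset ℕ) : Prop :=
  ∃ t ∈ T, (∀ u ∈ T, t ≤ u) ∧ Nat.primeCounting (n + t) ≡ r [MOD m]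

/-- the number of `n` in the class `b` for which the `n + a`, `a ∈ T`, are consecutive primes, the first with
index `≡ r` modulo `m` -/
noncomputable def cnI (m r X b : ℕ) (T : Finset ℕ) : ℕ :=
  ((SI X b).filter (fun n => Cns n T ∧ Idx m r n T)).card

theorem pc_eq {x : ℕ} (hx : x.Prime) : Nat.primeCounting x = Nat.count Nat.Prime x + 1 := by
  show Nat.count Nat.Prime (x + 1) = _
  rw [Nat.count_succ, if_pos hx]

theorem count_diff {n : ℕ} {F : Finset ℕ} (h : Cns n F) {a b : ℕ} (ha : a ∈ F) (hb : b ∈ F) (hab : a ≤ b) :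
    Nat.count Nat.Prime (n + b) =
      Nat.count Nat.Prime (n + a) + (F.filter (fun f => a ≤ f ∧ f < b)).card := by
  rw [Nat.count_eq_card_filter_range, Nat.count_eq_card_filter_range]
  have h1 : (range (n + b)).filter Nat.Prime = ((range (n + a)).filter Nat.Prime) ∪
      ((F.filter (fun f => a ≤ f ∧ f < b)).image (fun f => n + f)) := by
    ext x
    rw [mem_union, mem_filter, mem_filter, mem_range, mem_range, mem_image]
    constructor
    · rintro ⟨h2, h3⟩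
      by_cases h4 : x < n + a
      · exact Or.inl ⟨h4, h3⟩
      · right
        obtain ⟨j, rfl⟩ : ∃ j, x = n + j := ⟨x - n, by omega⟩
        exact ⟨j, mem_filter.2 ⟨h.2 j ⟨a, ha, by omega⟩ ⟨b, hb, by omega⟩ h3, by omega, by omega⟩, rfl⟩
    · rintro (⟨h2, h3⟩ | ⟨f, hf, rfl⟩)
      · exact ⟨by omega, h3⟩
      · obtain ⟨hf1, hf2, hf3⟩ := mem_filter.1 hf
        exact ⟨by omega, h.1 f hf1⟩
  rw [h1, card_union_of_disjoint, card_image_of_injective]
  · intro x y hxy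
    have hxy' : n + x = n + y := hxy
    omega
  · rw [disjoint_left]
    rintro x hx hx'
    obtain ⟨h2, -⟩ := mem_filter.1 hx
    rw [mem_range] at h2
    obtain ⟨f, hf, rfl⟩ := mem_image.1 hx'
    obtain ⟨-, h3, -⟩ := mem_filter.1 hf
    omega

theorem count_rk {n : ℕ} {F : Finset ℕ} (h : Cns n F) {a f : ℕ} (ha : a ∈ F) (hmin : ∀ u ∈ F, a ≤ u)
    (hf : f ∈ F) : Nat.count Nat.Prime (n + f) = Nat.count Nat.Prime (n + a) + rk F f := by
  rw [count_diff h ha hf (hmin f hf)]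
  congr 1
  unfold rk
  congr 1
  ext x
  rw [mem_filter, mem_filter]
  constructor
  · rintro ⟨h1, h2, h3⟩
    exact ⟨h1, h3⟩
  · rintro ⟨h1, h2⟩
    exact ⟨h1, hmin x h1, h2⟩

theorem cns_sub {n i : ℕ} {F T : Finset ℕ} (h : Cns n F) (hT : Pos i F T) : Cns n T :=
  ⟨fun a ha => h.1 a (hT.1 ha), fun j ⟨a, ha, h1⟩ ⟨b, hb, h2⟩ hp =>
    hT.2.1 j (h.2 j ⟨a, hT.1 ha, h1⟩ ⟨b, hT.1 hb, h2⟩ hp) ⟨a, ha, h1⟩ ⟨b, hb, h2⟩⟩

/-- the index of the first prime of `T` from the one of `F` -/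
theorem count_pos {n i : ℕ} {F T : Finset ℕ} (h : Cns n F) (hT : Pos i F T) {a t : ℕ} (ha : a ∈ F)
    (hmin : ∀ u ∈ F, a ≤ u) (ht : t ∈ T) (htm : ∀ u ∈ T, t ≤ u) :
    Nat.count Nat.Prime (n + t) = Nat.count Nat.Prime (n + a) + i := by
  rw [count_rk h ha hmin (hT.1 ht), ← hT.2.2 t ht htm]
  rfl

theorem exists_min {T : Finset ℕ} (hT : T.Nonempty) : ∃ t ∈ T, ∀ u ∈ T, t ≤ u :=
  ⟨T.min' hT, min'_mem T hT, fun u hu => min'_le T u hu⟩

theorem idx_shift {m c r n i : ℕ} {F T : Finset ℕ} (h : Cns n F) (hT : Pos i F T) (hne : T.Nonempty)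
    (hc : Idx m c n F) (hr : c + i ≡ r [MOD m]) : Idx m r n T := by
  obtain ⟨a, ha, hmin, hc⟩ := hc
  obtain ⟨t, ht, htm⟩ := exists_min hne
  refine ⟨t, ht, htm, ?_⟩
  have h1 := count_pos h hT ha hmin ht htm
  rw [pc_eq (h.1 _ (hT.1 ht)), h1]
  rw [pc_eq (h.1 _ ha)] at hc
  have h2 : Nat.count Nat.Prime (n + a) + i + 1 = Nat.count Nat.Prime (n + a) + 1 + i := by ring
  rw [h2]
  exact (Nat.ModEq.add_right i hc).trans hr

theorem unique {n i : ℕ} {F F' T : Finset ℕ} (h : Cns n F) (h' : Cns n F') (hT : Pos i F T)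
    (hT' : Pos i F' T) (hne : T.Nonempty) (hc : F.card = F'.card) : F = F' := by
  obtain ⟨t, ht, htm⟩ := exists_min hne
  obtain ⟨a, ha, hmin⟩ := exists_min (hne.mono hT.1)
  obtain ⟨a', ha', hmin'⟩ := exists_min (hne.mono hT'.1)
  have h1 := count_pos h hT ha hmin ht htm
  have h2 := count_pos h' hT' ha' hmin' ht htm
  have h3 : Nat.count Nat.Prime (n + a) = Nat.count Nat.Prime (n + a') := by omega
  apply eq_of_subset_of_card_le _ hc.ge
  intro f hf
  have h4 : rk F f ∈ F'.image (rk F') := by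
    rw [rk_image, ← hc]
    exact mem_range.2 (rk_lt_card F hf)
  obtain ⟨f', hf', h5⟩ := mem_image.1 h4
  have h6 := count_rk h ha hmin hf
  have h7 := count_rk h' ha' hmin' hf'
  have h8 : n + f = n + f' := Nat.count_injective (h.1 f hf) (h'.1 f' hf') (by omega)
  have h9 : f = f' := by omega
  rw [h9]
  exact hf'

/-- **the sum over the sets in which `T` is at the position `i`** -/
theorem sum_le_cnI {m c r i K X b : ℕ} (T : Finset ℕ) (hne : T.Nonempty) (D : Finset (Finset ℕ))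
    (hD : ∀ F ∈ D, F.card = K ∧ Pos i F T) (hr : c + i ≡ r [MOD m]) :
    ∑ F ∈ D, cnI m c X b F ≤ cnI m r X b T := by
  unfold cnI
  rw [← card_biUnion]
  · apply card_le_card
    intro n hn
    obtain ⟨F, hF, hn2⟩ := mem_biUnion.1 hn
    obtain ⟨h1, h2, h3⟩ := mem_filter.1 hn2
    obtain ⟨h4, h5⟩ := hD F hF
    exact mem_filter.2 ⟨h1, cns_sub h2 h5, idx_shift h2 h5 hne h3 hr⟩
  · intro F hF F' hF' hFF'
    rw [Function.onFun, disjoint_left]
    intro n hn hn'
    obtain ⟨h1, h2, h3⟩ := mem_filter.1 hn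
    obtain ⟨h1', h2', h3'⟩ := mem_filter.1 hn'
    obtain ⟨h4, h5⟩ := hD F hF
    obtain ⟨h4', h5'⟩ := hD F' hF'
    exact hFF' (unique h2 h2' h5 h5' hne (by rw [h4, h4']))

/-- some class of the index is popular -/
theorem pop {m X b : ℕ} (hm : 1 ≤ m) (F : Finset ℕ) (hne : F.Nonempty) (y : ℝ)
    (h : y ≤ (cnB X b F : ℝ)) : ∃ c : Fin m, y / m ≤ (cnI m c X b F : ℝ) := by
  have hm0 : (0 : ℝ) < m := by exact_mod_cast hm
  have h1 : cnB X b F ≤ ∑ c : Fin m, cnI m c X b F := by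
    unfold cnB cnI
    have h2 : (SI X b).filter (fun n => Cns n F) ⊆
        univ.biUnion (fun c : Fin m => (SI X b).filter (fun n => Cns n F ∧ Idx m c n F)) := by
      intro n hn
      obtain ⟨h3, h4⟩ := mem_filter.1 hn
      obtain ⟨t, ht, htm⟩ := exists_min hne
      rw [mem_biUnion]
      refine ⟨⟨Nat.primeCounting (n + t) % m, Nat.mod_lt _ hm⟩, mem_univ _, ?_⟩
      exact mem_filter.2 ⟨h3, h4, t, ht, htm, (Nat.mod_modEq _ _).symm⟩
    exact (card_le_card h2).trans card_biUnion_le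
  by_contra hcon
  push Not at hcon
  have h2 : ∑ c : Fin m, (cnI m c X b F : ℝ) < ∑ _c : Fin m, y / m := by
    apply sum_lt_sum_of_nonempty
    · exact ⟨⟨0, by omega⟩, mem_univ _⟩
    · intro c _
      exact hcon c
  rw [sum_const, card_univ, Fintype.card_fin, nsmul_eq_mul, mul_div_cancel₀ _ hm0.ne'] at h2
  have h3 : (cnB X b F : ℝ) ≤ ∑ c : Fin m, (cnI m c X b F : ℝ) := by exact_mod_cast h1
  linarith

end Pool.Agent.L7h36.IX
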