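import Pool.Agent.L7h36.IX.Den

/-!
Vectors of index classes (helper36).
-/

set_option autoImplicit false

namespace Pool.Agent.L7h36.IX

open Finset Classical
open Pool.Agent.H361R2.PP Pool.Agent.W70.HR Pool.Agent.W70.HRC
open Pool.Agent.W131.HR (Wpos)

/-- the elements of `F` whose ranks are in `R` -/
noncomputable def sub (R F : Finset ℕ) : Finset ℕ := F.filter (fun x => rk F x ∈ R)

theorem sub_sub (R F : Finset ℕ) : sub R F ⊆ F := filter_subset _ _

theorem rk_filter (R W : Finset ℕ) (hR : R ⊆ range W.card) {x : ℕ} (_ : x ∈ W) :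
    rk (sub R W) x = rk R (rk W x) := by
  unfold rk
  have h1 : ((sub R W).filter (fun y => y < x)).image (rk W) = R.filter (fun y => y < rk W x) := by
    ext y
    rw [mem_image, mem_filter]
    constructor
    · rintro ⟨z, hz, rfl⟩
      obtain ⟨h1, h2⟩ := mem_filter.1 hz
      obtain ⟨h3, h4⟩ := mem_filter.1 h1
      exact ⟨h4, rk_lt W h3 h2⟩
    · rintro ⟨h1, h2⟩
      have h3 : y ∈ W.image (rk W) := by
        rw [rk_image]
        exact hR h1
      obtain ⟨z, hz, rfl⟩ := mem_image.1 h3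
      refine ⟨z, mem_filter.2 ⟨mem_filter.2 ⟨hz, h1⟩, ?_⟩, rfl⟩
      by_contra h4
      have := rk_mono W (not_lt.1 h4)
      omega
  have h2 : Set.InjOn (rk W) (((sub R W).filter (fun y => y < x) : Finset ℕ) : Set ℕ) :=
    (rk_inj W).mono (by
      intro y hy
      exact mem_coe.2 (sub_sub R W (mem_filter.1 (mem_coe.1 hy)).1))
  have h3 := card_image_of_injOn h2
  rw [h1] at h3
  exact h3.symm

theorem sub_card (R W : Finset ℕ) (hR : R ⊆ range W.card) : (sub R W).card = R.card := by
  have h1 : (sub R W).image (rk W) = R := by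
    ext y
    rw [mem_image]
    constructor
    · rintro ⟨z, hz, rfl⟩
      exact (mem_filter.1 hz).2
    · intro h1
      have h3 : y ∈ W.image (rk W) := by
        rw [rk_image]
        exact hR h1
      obtain ⟨z, hz, rfl⟩ := mem_image.1 h3
      exact ⟨z, mem_filter.2 ⟨hz, h1⟩, rfl⟩
  have h2 : Set.InjOn (rk W) (sub R W : Set ℕ) := (rk_inj W).mono (by
    intro y hy
    exact mem_coe.2 (sub_sub R W (mem_coe.1 hy)))
  rw [← card_image_of_injOn h2, h1]

/-- ranks of the ranks -/
theorem sub_trans (Q P W : Finset ℕ) (hP : P ⊆ range W.card) (hQ : Q ⊆ P) :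
    sub (Q.image (rk P)) (sub P W) = sub Q W := by
  ext x
  constructor
  · intro hx
    obtain ⟨h1, h2⟩ := mem_filter.1 hx
    obtain ⟨h3, h4⟩ := mem_filter.1 h1
    rw [rk_filter P W hP h3] at h2
    obtain ⟨q, hq, h5⟩ := mem_image.1 h2
    have h6 : q = rk W x := rk_inj P (mem_coe.2 (hQ hq)) (mem_coe.2 h4) h5
    exact mem_filter.2 ⟨h3, h6 ▸ hq⟩
  · intro hx
    obtain ⟨h1, h2⟩ := mem_filter.1 hx
    refine mem_filter.2 ⟨mem_filter.2 ⟨h1, hQ h2⟩, ?_⟩
    rw [rk_filter P W hP h1]
    exact mem_image_of_mem _ h2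

theorem middle2 (k K w : ℕ) (Q : Finset ℕ) (hQ : Q ⊆ range w) (hQc : Q.card = k + 1) (hK : k + 1 ≤ K)
    (V : Finset ℕ) (hV : 1 ≤ V.card) {C : Type} (χ : Finset ℕ → C)
    (col : C) (c : ℝ) (hc : 0 < c)
    (h : c * (V.card : ℝ) ^ w ≤ ((Hom χ K w V col).card : ℝ)) :
    c / 2 * (V.card : ℝ) ^ (k + 1) ≤ (((V.powersetCard (k + 1)).filter (fun T => ∀ P ⊆ range w,
      P.card = K → Q ⊆ P → c / 2 * (V.card : ℝ) ^ (K - (k + 1)) ≤
        (((V.powersetCard K).filter (fun F => χ F = col ∧ sub (Q.image (rk P)) F = T)).card : ℝ))).card : ℝ) := by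
  obtain ⟨n, hn⟩ : ∃ n : ℝ, n = (V.card : ℝ) := ⟨_, rfl⟩
  have hn0 : 0 < n := by
    rw [hn]
    exact_mod_cast hV
  rw [← hn] at h ⊢
  set 𝒲 := Hom χ K w V col with h𝒲
  have hmem : ∀ W ∈ 𝒲, W ⊆ V ∧ W.card = w ∧ ∀ F ⊆ W, F.card = K → χ F = col := by
    intro W hW
    rw [h𝒲] at hW
    have h0 := mem_Hom.1 hW
    exact ⟨h0.1.1, h0.1.2, h0.2⟩
  set g : Finset ℕ → ℕ := fun T => (𝒲.filter (fun W => sub Q W = T)).card with hg
  have hsum : ∑ T ∈ V.powersetCard (k + 1), (g T : ℝ) = (𝒲.card : ℝ) := by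
    rw [card_eq_sum_card_fiberwise (f := fun W => sub Q W) (t := V.powersetCard (k + 1))]
    · rw [Nat.cast_sum]
    · intro W hW
      obtain ⟨h1, h2, -⟩ := hmem W (mem_coe.1 hW)
      rw [mem_coe, mem_powersetCard]
      exact ⟨(sub_sub _ _).trans h1, by rw [sub_card Q W (by rw [h2]; exact hQ), hQc]⟩
  -- the bound for all `T`
  have hg1 : ∀ T ∈ V.powersetCard (k + 1), (g T : ℝ) ≤ n ^ w / n ^ (k + 1) := by
    intro T hT
    have h1 := over_le V T w hV
    rw [(mem_powersetCard.1 hT).2, ← hn] at h1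
    refine le_trans ?_ h1
    rw [hg]
    have h2 : 𝒲.filter (fun W => sub Q W = T) ⊆ (V.powersetCard w).filter (fun S => T ⊆ S) := by
      intro W hW
      obtain ⟨h3, h4⟩ := mem_filter.1 hW
      obtain ⟨h5, h6, -⟩ := hmem W h3
      rw [mem_filter, mem_powersetCard]
      exact ⟨⟨h5, h6⟩, h4 ▸ sub_sub _ _⟩
    exact_mod_cast card_le_card h2
  -- the bound for the bad `T`
  have hg2 : ∀ T ∈ V.powersetCard (k + 1), (¬ ∀ P ⊆ range w, P.card = K → Q ⊆ P →
      c / 2 * n ^ (K - (k + 1)) ≤
        (((V.powersetCard K).filter (fun F => χ F = col ∧ sub (Q.image (rk P)) F = T)).card : ℝ)) →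
      (g T : ℝ) ≤ c / 2 * (n ^ w / n ^ (k + 1)) := by
    intro T hT hbad
    push Not at hbad
    obtain ⟨P, hP, hPK, hQP, hP2⟩ := hbad
    have h1 : 𝒲.filter (fun W => sub Q W = T) ⊆
        ((V.powersetCard K).filter (fun F => χ F = col ∧ sub (Q.image (rk P)) F = T)).biUnion
          (fun F => (V.powersetCard w).filter (fun S => F ⊆ S)) := by
      intro W hW
      obtain ⟨h3, h4⟩ := mem_filter.1 hW
      obtain ⟨h5, h6, h7⟩ := hmem W h3
      rw [mem_biUnion]
      have hPW : P ⊆ range W.card := by rw [h6]; exact hP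
      have h8 : (sub P W).card = K := by rw [sub_card P W hPW, hPK]
      refine ⟨sub P W, ?_, ?_⟩
      · rw [mem_filter, mem_powersetCard]
        exact ⟨⟨(sub_sub _ _).trans h5, h8⟩, h7 _ (sub_sub _ _) h8, (sub_trans Q P W hPW hQP).trans h4⟩
      · rw [mem_filter, mem_powersetCard]
        exact ⟨⟨h5, h6⟩, sub_sub _ _⟩
    have h2 : (g T : ℝ) ≤ ∑ F ∈ (V.powersetCard K).filter (fun F => χ F = col ∧ sub (Q.image (rk P)) F = T),
        (((V.powersetCard w).filter (fun S => F ⊆ S)).card : ℝ) := by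
      have h3 := (card_le_card h1).trans card_biUnion_le
      rw [hg]
      exact_mod_cast h3
    have h3 : ∑ F ∈ (V.powersetCard K).filter (fun F => χ F = col ∧ sub (Q.image (rk P)) F = T),
        (((V.powersetCard w).filter (fun S => F ⊆ S)).card : ℝ) ≤
        ∑ _F ∈ (V.powersetCard K).filter (fun F => χ F = col ∧ sub (Q.image (rk P)) F = T), n ^ w / n ^ K := by
      apply sum_le_sum
      intro F hF
      have h4 := over_le V F w hV
      rw [(mem_powersetCard.1 (mem_filter.1 hF).1).2, ← hn] at h4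
      exact h4
    rw [sum_const, nsmul_eq_mul] at h3
    refine h2.trans (h3.trans ?_)
    calc (((V.powersetCard K).filter (fun F => χ F = col ∧ sub (Q.image (rk P)) F = T)).card : ℝ) *
          (n ^ w / n ^ K)
        ≤ (c / 2 * n ^ (K - (k + 1))) * (n ^ w / n ^ K) := by gcongr
      _ = c / 2 * (n ^ w / n ^ (k + 1)) := by
        have h5 : n ^ K = n ^ (k + 1) * n ^ (K - (k + 1)) := by
          rw [← pow_add]
          congr 1
          omega
        rw [h5]
        field_simp
  -- sum up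
  set Gd := (V.powersetCard (k + 1)).filter (fun T => ∀ P ⊆ range w, P.card = K → Q ⊆ P →
      c / 2 * n ^ (K - (k + 1)) ≤
        (((V.powersetCard K).filter (fun F => χ F = col ∧ sub (Q.image (rk P)) F = T)).card : ℝ)) with hGd
  have hsplit : ∑ T ∈ V.powersetCard (k + 1), (g T : ℝ) ≤
      (Gd.card : ℝ) * (n ^ w / n ^ (k + 1)) + n ^ (k + 1) * (c / 2 * (n ^ w / n ^ (k + 1))) := by
    rw [← sum_filter_add_sum_filter_not (V.powersetCard (k + 1)) (fun T => ∀ P ⊆ range w, P.card = K → Q ⊆ P →
      c / 2 * n ^ (K - (k + 1)) ≤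
        (((V.powersetCard K).filter (fun F => χ F = col ∧ sub (Q.image (rk P)) F = T)).card : ℝ))]
    apply add_le_add
    · calc ∑ T ∈ Gd, (g T : ℝ) ≤ ∑ _T ∈ Gd, n ^ w / n ^ (k + 1) :=
            sum_le_sum fun T hT => hg1 T (mem_filter.1 hT).1
        _ = _ := by rw [sum_const, nsmul_eq_mul]
    · refine (sum_le_sum fun T hT => hg2 T (mem_filter.1 hT).1 (mem_filter.1 hT).2).trans ?_
      rw [sum_const, nsmul_eq_mul]
      apply mul_le_mul_of_nonneg_right _ (by positivity)
      have h2 := (card_filter_le (V.powersetCard (k + 1)) (fun T => ¬ ∀ P ⊆ range w, P.card = K → Q ⊆ P →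
        c / 2 * n ^ (K - (k + 1)) ≤
        (((V.powersetCard K).filter (fun F => χ F = col ∧ sub (Q.image (rk P)) F = T)).card : ℝ)))
      rw [card_powersetCard] at h2
      have h3 := h2.trans (Nat.choose_le_pow _ _)
      have h4 : ((V.card ^ (k + 1) : ℕ) : ℝ) = n ^ (k + 1) := by
        rw [hn, Nat.cast_pow]
      rw [← h4]
      exact Nat.cast_le.2 h3
  rw [hsum] at hsplit
  have h1 : c * n ^ w ≤ (Gd.card : ℝ) * (n ^ w / n ^ (k + 1)) + c / 2 * n ^ w := by
    refine (h.trans hsplit).trans (le_of_eq ?_)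
    congr 1
    field_simp
  have h2 : c / 2 * n ^ w ≤ (Gd.card : ℝ) * (n ^ w / n ^ (k + 1)) := by linarith
  rw [mul_div_assoc', le_div_iff₀ (by positivity)] at h2
  have h3 : (c / 2 * n ^ (k + 1)) * n ^ w ≤ (Gd.card : ℝ) * n ^ w := by linarith [h2]
  exact le_of_mul_le_mul_right h3 (by positivity)

/-- the positions of the elements of `T` -/
def QT (k m : ℕ) : Finset ℕ := (range (k + 1)).image (fun j => j * m + (m - 1))

theorem mem_QT {k m x : ℕ} : x ∈ QT k m ↔ ∃ j < k + 1, j * m + (m - 1) = x := by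
  unfold QT
  rw [mem_image]
  constructor
  · rintro ⟨j, hj, h⟩
    exact ⟨j, mem_range.1 hj, h⟩
  · rintro ⟨j, hj, h⟩
    exact ⟨j, mem_range.2 hj, h⟩

theorem QT_card (k m : ℕ) (hm : 1 ≤ m) : (QT k m).card = k + 1 := by
  unfold QT
  rw [card_image_of_injective, card_range]
  intro x y hxy
  have h1 : x * m + (m - 1) = y * m + (m - 1) := hxy
  exact Nat.eq_of_mul_eq_mul_right hm (by omega)

theorem QT_sub (k m : ℕ) (hm : 1 ≤ m) : QT k m ⊆ range ((k + 1) * m) := by
  intro x hx
  obtain ⟨j, hj, rfl⟩ := mem_QT.1 hx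
  rw [mem_range]
  have h1 : (j + 1) * m ≤ (k + 1) * m := Nat.mul_le_mul_right m hj
  have h2 : (j + 1) * m = j * m + m := by ring
  omega

theorem rk_QT (k m j : ℕ) (hm : 1 ≤ m) (hj : j < k + 1) : rk (QT k m) (j * m + (m - 1)) = j := by
  unfold rk
  have h1 : (QT k m).filter (fun y => y < j * m + (m - 1)) = (range j).image (fun i => i * m + (m - 1)) := by
    ext x
    rw [mem_filter, mem_QT, mem_image]
    constructor
    · rintro ⟨⟨i, hi, rfl⟩, h2⟩
      refine ⟨i, mem_range.2 ?_, rfl⟩
      by_contra h3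
      have := Nat.mul_le_mul_right m (not_lt.1 h3)
      omega
    · rintro ⟨i, hi, rfl⟩
      rw [mem_range] at hi
      have h2 : (i + 1) * m ≤ j * m := Nat.mul_le_mul_right m hi
      have h3 : (i + 1) * m = i * m + m := by ring
      exact ⟨⟨i, by omega, rfl⟩, by omega⟩
  rw [h1, card_image_of_injective, card_range]
  intro x y hxy
  have h1 : x * m + (m - 1) = y * m + (m - 1) := hxy
  exact Nat.eq_of_mul_eq_mul_right hm (by omega)

/-- a set of positions with prescribed ranks modulo `m` -/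
theorem exists_pos (m c : ℕ) (hm : 1 ≤ m) (r : ℕ → ℕ) (k : ℕ) : ∃ P ⊆ range ((k + 1) * m),
    QT k m ⊆ P ∧ ∀ j < k + 1, c + rk P (j * m + (m - 1)) ≡ r j [MOD m] := by
  have hmod : ∀ a b : ℕ, ∃ i < m, a + i ≡ b [MOD m] := by
    intro a b
    refine ⟨(b + (m - a % m)) % m, Nat.mod_lt _ hm, ?_⟩
    have h1 : a + (b + (m - a % m)) % m ≡ a + (b + (m - a % m)) [MOD m] :=
      Nat.ModEq.add_left _ (Nat.mod_modEq _ _)
    have h2 : a % m < m := Nat.mod_lt _ hm
    have h3 : a + (b + (m - a % m)) ≡ a % m + (b + (m - a % m)) [MOD m] :=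
      Nat.ModEq.add_right _ (Nat.mod_modEq _ _).symm
    have h4 : a % m + (b + (m - a % m)) = b + m := by omega
    rw [h4] at h3
    exact h1.trans (h3.trans (by simp [Nat.ModEq]))
  induction k with
  | zero =>
    obtain ⟨i, hi, h1⟩ := hmod c (r 0)
    refine ⟨Ico (m - 1 - i) m, ?_, ?_, ?_⟩
    · intro x hx
      rw [mem_Ico] at hx
      rw [mem_range]
      omega
    · intro x hx
      obtain ⟨j, hj, rfl⟩ := mem_QT.1 hx
      have : j = 0 := by omega
      subst this
      rw [mem_Ico]
      omega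
    · intro j hj
      have : j = 0 := by omega
      subst this
      have h2 : rk (Ico (m - 1 - i) m) (0 * m + (m - 1)) = i := by
        unfold rk
        have h3 : (Ico (m - 1 - i) m).filter (fun y => y < 0 * m + (m - 1)) = Ico (m - 1 - i) (m - 1) := by
          ext x
          rw [mem_filter, mem_Ico, mem_Ico]
          omega
        rw [h3, Nat.card_Ico]
        omega
      rw [h2]
      exact h1
  | succ k ih =>
    obtain ⟨P, hP, hQ, hr⟩ := ih
    obtain ⟨i, hi, h1⟩ := hmod (c + P.card) (r (k + 1))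
    have e1 : (k + 1 + 1) * m = (k + 1) * m + m := by ring
    refine ⟨P ∪ Ico ((k + 1) * m + (m - 1 - i)) ((k + 1) * m + m), ?_, ?_, ?_⟩
    · intro x hx
      rw [mem_range]
      rcases mem_union.1 hx with h | h
      · have := mem_range.1 (hP h)
        omega
      · rw [mem_Ico] at h
        omega
    · intro x hx
      obtain ⟨j, hj, rfl⟩ := mem_QT.1 hx
      rw [mem_union]
      rcases Nat.lt_or_ge j (k + 1) with h | h
      · exact Or.inl (hQ (mem_QT.2 ⟨j, h, rfl⟩))
      · have : j = k + 1 := by omega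
        subst this
        right
        rw [mem_Ico]
        omega
    · intro j hj
      rcases Nat.lt_or_ge j (k + 1) with h | h
      · have h2 : rk (P ∪ Ico ((k + 1) * m + (m - 1 - i)) ((k + 1) * m + m)) (j * m + (m - 1)) =
            rk P (j * m + (m - 1)) := by
          unfold rk
          congr 1
          ext x
          rw [mem_filter, mem_filter, mem_union]
          have h3 : (j + 1) * m ≤ (k + 1) * m := Nat.mul_le_mul_right m h
          have h4 : (j + 1) * m = j * m + m := by ring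
          constructor
          · rintro ⟨h5 | h5, h6⟩
            · exact ⟨h5, h6⟩
            · rw [mem_Ico] at h5
              omega
          · rintro ⟨h5, h6⟩
            exact ⟨Or.inl h5, h6⟩
        rw [h2]
        exact hr j h
      · have : j = k + 1 := by omega
        subst this
        have h2 : rk (P ∪ Ico ((k + 1) * m + (m - 1 - i)) ((k + 1) * m + m)) ((k + 1) * m + (m - 1)) =
            P.card + i := by
          unfold rk
          have h3 : (P ∪ Ico ((k + 1) * m + (m - 1 - i)) ((k + 1) * m + m)).filter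
              (fun y => y < (k + 1) * m + (m - 1)) =
              P ∪ Ico ((k + 1) * m + (m - 1 - i)) ((k + 1) * m + (m - 1)) := by
            ext x
            rw [mem_filter, mem_union, mem_union, mem_Ico, mem_Ico]
            constructor
            · rintro ⟨h5 | h5, h6⟩
              · exact Or.inl h5
              · exact Or.inr ⟨h5.1, h6⟩
            · rintro (h5 | h5)
              · have := mem_range.1 (hP h5)
                exact ⟨Or.inl h5, by omega⟩
              · exact ⟨Or.inr ⟨h5.1, by omega⟩, by omega⟩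
          rw [h3, card_union_of_disjoint, Nat.card_Ico]
          · omega
          · rw [disjoint_left]
            intro x hx hx'
            have := mem_range.1 (hP hx)
            rw [mem_Ico] at hx'
            omega
        rw [h2, ← add_assoc]
        exact h1

/-- the same with a prescribed number of elements -/
theorem exists_pos' (m c : ℕ) (hm : 1 ≤ m) (r : ℕ → ℕ) (k : ℕ) : ∃ P ⊆ range (2 * ((k + 1) * m)),
    P.card = (k + 1) * m ∧ QT k m ⊆ P ∧ ∀ j < k + 1, c + rk P (j * m + (m - 1)) ≡ r j [MOD m] := by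
  obtain ⟨P, hP, hQ, hr⟩ := exists_pos m c hm r k
  have h0 : P.card ≤ (k + 1) * m := by
    have := card_le_card hP
    rwa [card_range] at this
  have hdis : Disjoint P (Ico ((k + 1) * m) ((k + 1) * m + ((k + 1) * m - P.card))) := by
    rw [disjoint_left]
    intro x hx hx'
    have := mem_range.1 (hP hx)
    rw [mem_Ico] at hx'
    omega
  refine ⟨P ∪ Ico ((k + 1) * m) ((k + 1) * m + ((k + 1) * m - P.card)), ?_, ?_, ?_, ?_⟩
  · intro x hx
    rw [mem_range]
    rcases mem_union.1 hx with h | h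
    · have := mem_range.1 (hP h)
      omega
    · rw [mem_Ico] at h
      omega
  · rw [card_union_of_disjoint hdis, Nat.card_Ico]
    omega
  · exact hQ.trans subset_union_left
  · intro j hj
    have h2 : rk (P ∪ Ico ((k + 1) * m) ((k + 1) * m + ((k + 1) * m - P.card))) (j * m + (m - 1)) =
        rk P (j * m + (m - 1)) := by
      unfold rk
      congr 1
      ext x
      rw [mem_filter, mem_filter, mem_union]
      have h3 : (j + 1) * m ≤ (k + 1) * m := Nat.mul_le_mul_right m hj
      have h4 : (j + 1) * m = j * m + m := by ring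
      constructor
      · rintro ⟨h5 | h5, h6⟩
        · exact ⟨h5, h6⟩
        · rw [mem_Ico] at h5
          omega
      · rintro ⟨h5, h6⟩
        exact ⟨Or.inl h5, h6⟩
    rw [h2]
    exact hr j hj

end Pool.Agent.L7h36.IX
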