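import Pool.Agent.L7h36.IX.Vec

/-!
Vectors of index classes in one class of shifts (helper36).
-/

set_option autoImplicit false

namespace Pool.Agent.L7h36.IX

open Finset Classical
open Pool.Agent.H361R2.PP Pool.Agent.W70.HR Pool.Agent.W70.HRC
open Pool.Agent.W131.HR (Wpos)

/-- all the `n + t` are prime, and the index of the `j`-th of them is `≡ r j` modulo `m` (`j = 0, 1, …`) -/
def IdxV (m : ℕ) (r : ℕ → ℕ) (n : ℕ) (T : Finset ℕ) : Prop :=
  ∀ t ∈ T, (n + t).Prime ∧ Nat.primeCounting (n + t) ≡ r (rk T t) [MOD m]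

/-- the number of `n` in the class `b` for which all the `n + t` are prime with indices in the classes `r j` -/
noncomputable def cnV (m : ℕ) (r : ℕ → ℕ) (X b : ℕ) (T : Finset ℕ) : ℕ :=
  ((SI X b).filter (fun n => IdxV m r n T)).card

theorem idxV {m c n : ℕ} {r : ℕ → ℕ} {R F : Finset ℕ} (h : Cns n F) (hc : Idx m c n F)
    (hR : R ⊆ range F.card) (hr : ∀ ρ ∈ R, c + ρ ≡ r (rk R ρ) [MOD m]) : IdxV m r n (sub R F) := by
  obtain ⟨a, ha, hmin, hc⟩ := hc
  intro t ht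
  obtain ⟨h1, h2⟩ := mem_filter.1 ht
  refine ⟨h.1 t h1, ?_⟩
  rw [rk_filter R F hR h1, pc_eq (h.1 t h1), count_rk h ha hmin h1]
  rw [pc_eq (h.1 a ha)] at hc
  have h3 : Nat.count Nat.Prime (n + a) + rk F t + 1 = Nat.count Nat.Prime (n + a) + 1 + rk F t := by ring
  rw [h3]
  exact (Nat.ModEq.add_right _ hc).trans (hr _ h2)

theorem unique0 {n : ℕ} {F F' : Finset ℕ} (h : Cns n F) (h' : Cns n F') {a a' : ℕ} (ha : a ∈ F)
    (hmin : ∀ u ∈ F, a ≤ u) (ha' : a' ∈ F') (hmin' : ∀ u ∈ F', a' ≤ u)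
    (h3 : Nat.count Nat.Prime (n + a) = Nat.count Nat.Prime (n + a')) (hc : F.card = F'.card) : F = F' := by
  apply eq_of_subset_of_card_le _ hc.ge
  intro f hf
  have h4 : rk F f ∈ F'.image (rk F') := by
    rw [rk_image, ← hc]
    exact mem_range.2 (rk_lt_card F hf)
  obtain ⟨f', hf', h5⟩ := mem_image.1 h4
  have h6 := count_rk h ha hmin hf
  have h7 := count_rk h' ha' hmin' hf'
  have h8 : n + f = n + f' := Nat.count_injective (h.1 f hf) (h'.1 f' hf') (by omega)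
  have h9 : f = f' := by omega
  rw [h9]
  exact hf'

theorem sum_le_cnV {m c K X b : ℕ} {r : ℕ → ℕ} (T R : Finset ℕ) (hR : R ⊆ range K) (hRne : R.Nonempty)
    (D : Finset (Finset ℕ)) (hD : ∀ F ∈ D, F.card = K ∧ sub R F = T)
    (hr : ∀ ρ ∈ R, c + ρ ≡ r (rk R ρ) [MOD m]) :
    ∑ F ∈ D, cnI m c X b F ≤ cnV m r X b T := by
  unfold cnI cnV
  rw [← card_biUnion]
  · apply card_le_card
    intro n hn
    obtain ⟨F, hF, hn2⟩ := mem_biUnion.1 hn
    obtain ⟨h1, h2, h3⟩ := mem_filter.1 hn2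
    obtain ⟨h4, h5⟩ := hD F hF
    refine mem_filter.2 ⟨h1, ?_⟩
    rw [← h5]
    exact idxV h2 h3 (by rw [h4]; exact hR) hr
  · intro F hF F' hF' hFF'
    rw [Function.onFun, disjoint_left]
    intro n hn hn'
    obtain ⟨h1, h2, h3⟩ := mem_filter.1 hn
    obtain ⟨h1', h2', h3'⟩ := mem_filter.1 hn'
    obtain ⟨h4, h5⟩ := hD F hF
    obtain ⟨h4', h5'⟩ := hD F' hF'
    have hRF : R ⊆ range F.card := by rw [h4]; exact hR
    have hRF' : R ⊆ range F'.card := by rw [h4']; exact hR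
    have h6 : 0 < (sub R F).card := by
      rw [sub_card R F hRF]
      exact card_pos.2 hRne
    obtain ⟨t, ht⟩ := card_pos.1 h6
    have ht' : t ∈ sub R F' := by rw [h5', ← h5]; exact ht
    obtain ⟨t1, t2⟩ := mem_filter.1 ht
    obtain ⟨t1', t2'⟩ := mem_filter.1 ht'
    have h7 : rk F t = rk F' t := by
      apply rk_inj R (mem_coe.2 t2) (mem_coe.2 t2')
      rw [← rk_filter R F hRF t1, ← rk_filter R F' hRF' t1', h5, h5']
    obtain ⟨a, ha, hmin⟩ := exists_min (⟨t, t1⟩ : F.Nonempty)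
    obtain ⟨a', ha', hmin'⟩ := exists_min (⟨t, t1'⟩ : F'.Nonempty)
    have h8 := count_rk h2 ha hmin t1
    have h9 := count_rk h2' ha' hmin' t1'
    exact hFF' (unique0 h2 h2' ha hmin ha' hmin' (by omega) (by rw [h4, h4']))

theorem rk_rk (Q P : Finset ℕ) (hQ : Q ⊆ P) {q : ℕ} (hq : q ∈ Q) : rk (Q.image (rk P)) (rk P q) = rk Q q := by
  have h1 : Q.image (rk P) ⊆ range P.card := by
    intro x hx
    obtain ⟨y, hy, rfl⟩ := mem_image.1 hx
    exact mem_range.2 (rk_lt_card P (hQ hy))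
  have h2 : sub (Q.image (rk P)) P = Q := by
    ext x
    constructor
    · intro hx
      obtain ⟨h3, h4⟩ := mem_filter.1 hx
      obtain ⟨y, hy, h5⟩ := mem_image.1 h4
      have h6 : y = x := rk_inj P (mem_coe.2 (hQ hy)) (mem_coe.2 h3) h5
      exact h6 ▸ hy
    · intro hx
      exact mem_filter.2 ⟨hQ hx, mem_image_of_mem _ hx⟩
  rw [← rk_filter _ P h1 (hQ hq), h2]

/-- many sets of `k + 1` positions are good for all the vectors of classes of the indices -/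
def DenV (k m : ℕ) (Λ c : ℝ) : Prop := ∀ η : ℝ, 0 < η → ∃ δ : ℝ, 0 < δ ∧ ∃ X₀ : ℕ, ∀ X : ℕ, X₀ ≤ X →
  ∀ b : ℕ, b < Wm X → ∀ V ⊆ Bw Λ X b,
  η * (Real.log X * (Nat.totient (Wm X) / Wm X)) ≤ (V.card : ℝ) →
  c * (V.card : ℝ) ^ (k + 1) ≤ (((V.powersetCard (k + 1)).filter
    (fun T => ∀ r : ℕ → ℕ, δ * ex X (k + 1) ≤ (cnV m r X b T : ℝ))).card : ℝ)

theorem denV (k m : ℕ) (hk : 1 ≤ k) (hm : 1 ≤ m) :
    ∃ Λ c : ℝ, 0 < Λ ∧ Λ ≤ 1 ∧ 0 < c ∧ DenV k m Λ c := by
  have hkm : k + 1 ≤ (k + 1) * m := Nat.le_mul_of_pos_right _ hm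
  obtain ⟨k', hk'⟩ : ∃ k', k' + 1 = (k + 1) * m := ⟨(k + 1) * m - 1, by omega⟩
  obtain ⟨K, hK, Λ, hΛ, hΛ1, hMT⟩ := mtck k' (by omega)
  obtain ⟨T, hT⟩ : ∃ T, T = 8 * k' ^ 2 + 1 := ⟨_, rfl⟩
  rw [← hT] at hMT
  have hT1 : 1 ≤ T := by omega
  have hm0 : (0 : ℝ) < m := by exact_mod_cast hm
  obtain ⟨ε₁, c, n₀, hε₁, hc, hmono⟩ := many_mono m (k' + 1) (T * K) (2 * ((k + 1) * m)) hm
  refine ⟨Λ, c / 2, hΛ, hΛ1, by positivity, fun η hη => ?_⟩
  obtain ⟨δ, hδ, X₁, hX₁⟩ := Pool.Agent.W407.HRC.exc mv Pool.Agent.H325R2.wtx k' T K Λ hT1 hK hΛ hMT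
    η ε₁ hη hε₁
  obtain ⟨X₂, hX₂⟩ := Pool.Agent.W12.HR.large Pool.Agent.H325R2.wtx η hη (n₀ + 1)
  refine ⟨c / 2 * η ^ ((k + 1) * m - (k + 1)) * (δ / m), by positivity, max X₁ (max X₂ 3),
    fun X hX b hb V hV hcard => ?_⟩
  have hXa : X₁ ≤ X := (le_max_left _ _).trans hX
  have hXb : X₂ ≤ X := (le_max_left _ _).trans ((le_max_right _ _).trans hX)
  have hXc : 3 ≤ X := (le_max_right _ _).trans ((le_max_right _ _).trans hX)
  have hV0 : n₀ + 1 ≤ V.card := by exact_mod_cast (hX₂ X hXb).trans hcard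
  have hL : 0 < Real.log X := Real.log_pos (by
    have : (3 : ℝ) ≤ X := by exact_mod_cast hXc
    linarith)
  have hW0 : (0 : ℝ) < Wm X := by exact_mod_cast Wpos X
  have hφ0 : (0 : ℝ) < Nat.totient (Wm X) := by exact_mod_cast Nat.totient_pos.2 (Wpos X)
  have hex0 : 0 ≤ ex X (k' + 1) := by
    unfold ex
    positivity
  -- the colours
  obtain ⟨χ, hχ⟩ : ∃ χ : Finset ℕ → Option (Fin m), χ = fun F =>
      if h : ∃ c : Fin m, δ * ex X (k' + 1) / m ≤ (cnI m c X b F : ℝ) then some h.choose else none := ⟨_, rfl⟩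
  have hχ1 : ∀ F, F.card = k' + 1 → δ * ex X (k' + 1) ≤ (cnB X b F : ℝ) → χ F ≠ none := by
    intro F hF hG
    have h1 := pop hm F (card_pos.1 (by omega)) _ hG
    rw [hχ]
    simp only [dif_pos h1]
    exact Option.some_ne_none _
  have hχ2 : ∀ F (c : Fin m), χ F = some c → δ * ex X (k' + 1) / m ≤ (cnI m c X b F : ℝ) := by
    intro F c' hF
    rw [hχ] at hF
    by_cases h : ∃ c : Fin m, δ * ex X (k' + 1) / m ≤ (cnI m c X b F : ℝ)
    · simp only [dif_pos h] at hF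
      have h2 := h.choose_spec
      rw [Option.some.inj hF] at h2
      exact h2
    · simp only [dif_neg h] at hF
      exact absurd hF (by simp)
  have h1 := hom_le k' T K m χ (fun F => δ * ex X (k' + 1) ≤ (cnB X b F : ℝ)) V hχ1
  have h2 : ((Hom χ (k' + 1) (T * K) V none).card : ℝ) ≤ ε₁ * (V.card : ℝ) ^ (T * K) := by
    have h3 : ((Hom χ (k' + 1) (T * K) V none).card : ℝ) ≤
        ((ExC (fun F => δ * ex X (k' + 1) ≤ (cnB X b F : ℝ)) k' T K V).card : ℝ) := by exact_mod_cast h1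
    exact h3.trans (hX₁ X hXa b hb V hV hcard)
  obtain ⟨col, hcol⟩ := hmono χ V (by omega) h2
  rw [hk'] at hcol
  have hQw : QT k m ⊆ range (2 * ((k + 1) * m)) := by
    intro x hx
    have := mem_range.1 (QT_sub k m hm hx)
    rw [mem_range]
    omega
  have h3 := middle2 k ((k + 1) * m) (2 * ((k + 1) * m)) (QT k m) hQw (QT_card k m hm) hkm V (by omega) χ
    (some col) c hc hcol
  refine h3.trans ?_
  apply Nat.cast_le.2
  apply card_le_card
  intro S hS
  obtain ⟨hS1, hS2⟩ := mem_filter.1 hS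
  refine mem_filter.2 ⟨hS1, fun r => ?_⟩
  obtain ⟨P, hP, hPK, hQP, hPr⟩ := exists_pos' m col hm r k
  have h4 := hS2 P hP hPK hQP
  have hR : (QT k m).image (rk P) ⊆ range ((k + 1) * m) := by
    intro x hx
    obtain ⟨q, hq, rfl⟩ := mem_image.1 hx
    rw [← hPK]
    exact mem_range.2 (rk_lt_card P (hQP hq))
  have hRne : ((QT k m).image (rk P)).Nonempty := by
    rw [image_nonempty]
    exact card_pos.1 (by rw [QT_card k m hm]; omega)
  have h5 := sum_le_cnV (m := m) (c := col) (K := (k + 1) * m) (X := X) (b := b) (r := r) S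
    ((QT k m).image (rk P)) hR hRne
    ((V.powersetCard ((k + 1) * m)).filter (fun F => χ F = some col ∧ sub ((QT k m).image (rk P)) F = S)) (by
      intro F hF
      obtain ⟨h6, h7⟩ := mem_filter.1 hF
      exact ⟨(mem_powersetCard.1 h6).2, h7.2⟩) (by
      intro ρ hρ
      obtain ⟨q, hq, rfl⟩ := mem_image.1 hρ
      rw [rk_rk _ _ hQP hq]
      obtain ⟨j, hj, rfl⟩ := mem_QT.1 hq
      rw [rk_QT k m j hm hj]
      exact hPr j hj)
  have h6 : (((V.powersetCard ((k + 1) * m)).filter (fun F => χ F = some col ∧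
      sub ((QT k m).image (rk P)) F = S)).card : ℝ) *
      (δ * ex X (k' + 1) / m) ≤ (cnV m r X b S : ℝ) := by
    have h7 : (((V.powersetCard ((k + 1) * m)).filter (fun F => χ F = some col ∧
        sub ((QT k m).image (rk P)) F = S)).card : ℝ) *
        (δ * ex X (k' + 1) / m) ≤
        ∑ F ∈ (V.powersetCard ((k + 1) * m)).filter (fun F => χ F = some col ∧
          sub ((QT k m).image (rk P)) F = S), (cnI m col X b F : ℝ) := by
      rw [← nsmul_eq_mul, ← sum_const]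
      apply sum_le_sum
      intro F hF
      exact hχ2 F col (mem_filter.1 hF).2.1
    refine h7.trans ?_
    exact_mod_cast h5
  refine le_trans ?_ h6
  have h8 : c / 2 * (η * (Real.log X * (Nat.totient (Wm X) / Wm X))) ^ ((k + 1) * m - (k + 1)) ≤
      (((V.powersetCard ((k + 1) * m)).filter (fun F => χ F = some col ∧
        sub ((QT k m).image (rk P)) F = S)).card : ℝ) := by
    refine le_trans ?_ (h4.trans (le_of_eq (by congr)))
    gcongr
  have h9 : ex X (k' + 1) = ex X (k + 1) *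
      ((Wm X : ℝ) / (Nat.totient (Wm X) * Real.log X)) ^ ((k + 1) * m - (k + 1)) := by
    unfold ex
    rw [mul_assoc, ← pow_add]
    congr 2
    omega
  have h10 : (Real.log X * (Nat.totient (Wm X) / Wm X)) ^ ((k + 1) * m - (k + 1)) *
      ((Wm X : ℝ) / (Nat.totient (Wm X) * Real.log X)) ^ ((k + 1) * m - (k + 1)) = 1 := by
    rw [← mul_pow]
    have : Real.log X * (Nat.totient (Wm X) / Wm X) * ((Wm X : ℝ) / (Nat.totient (Wm X) * Real.log X)) = 1 := by
      field_simp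
    rw [this, one_pow]
  calc c / 2 * η ^ ((k + 1) * m - (k + 1)) * (δ / m) * ex X (k + 1)
      = c / 2 * η ^ ((k + 1) * m - (k + 1)) * (δ / m) * ex X (k + 1) *
        ((Real.log X * (Nat.totient (Wm X) / Wm X)) ^ ((k + 1) * m - (k + 1)) *
          ((Wm X : ℝ) / (Nat.totient (Wm X) * Real.log X)) ^ ((k + 1) * m - (k + 1))) := by rw [h10, mul_one]
    _ = (c / 2 * (η * (Real.log X * (Nat.totient (Wm X) / Wm X))) ^ ((k + 1) * m - (k + 1))) *
        (δ * ex X (k' + 1) / m) := by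
        rw [h9, mul_pow]
        ring
    _ ≤ _ := by
        apply mul_le_mul_of_nonneg_right h8
        positivity

end Pool.Agent.L7h36.IX
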